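import Pool.Agent.L0h99.SO.Poi
import Pool.Agent.R372.OP.MOM

/-!
# Relaxations of 2-CNF formulas: the Poincare inequality and moments of symmetric functions
-/

set_option autoImplicit false
set_option linter.unusedSectionVars false
set_option linter.unusedVariables false

namespace Pool.Agent.L0h99.SO

open MeasureTheory Set Filter Topology ProbabilityTheory
open Pool.Agent.R972.OP (OPp cfg mv QQ adj pd cb WC)

variable {n : ℕ}

/-! ### moments on the cube -/

namespace Cube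

open Pool.Agent.R372.OP.MOM (nu rest)

theorem m2 : ∫ t, t ^ 2 ∂nu = 1 / 3 := Pool.Agent.R372.OP.MOM.m2

theorem m4 : ∫ t, (t ^ 2) ^ 2 ∂nu = 1 / 5 := by
  have e : ∀ t : ℝ, (t ^ 2) ^ 2 = t ^ 4 := fun t => by ring
  simp only [e]
  unfold nu
  rw [integral_Icc_eq_integral_Ioc, ← intervalIntegral.integral_of_le zero_le_one, integral_pow]
  norm_num

theorem mid : MemLp (fun t : ℝ => t ^ 2) 2 nu := by
  apply MemLp.of_bound (by fun_prop) 1
  unfold nu
  filter_upwards [ae_restrict_mem measurableSet_Icc] with t ht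
  rw [Real.norm_eq_abs, abs_of_nonneg (sq_nonneg t)]
  exact pow_le_one₀ ht.1 ht.2

theorem var1 : Var[fun t : ℝ => t ^ 2; nu] = 4 / 45 := by
  rw [variance_eq_sub mid]
  have h1 := m2
  have h2 := m4
  simp only [Pi.pow_apply]
  rw [h1, h2]
  norm_num

theorem mean (n : ℕ) :
    ∫ x : Fin n → ℝ, ∑ i, x i ^ 2 ∂(Measure.pi (fun _ => nu)) = (n : ℝ) / 3 := by
  rw [integral_finsetSum]
  · have h : ∀ i : Fin n, ∫ x : Fin n → ℝ, x i ^ 2 ∂(Measure.pi (fun _ => nu)) = 1 / 3 := by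
      intro i
      rw [integral_comp_eval (μ := fun _ : Fin n => nu) (i := i) (f := fun t => t ^ 2)
        (by fun_prop)]
      exact m2
    rw [Finset.sum_congr rfl (fun i _ => h i)]
    simp
    ring
  · intro i _
    have h := mid.integrable one_le_two
    exact integrable_comp_eval (μ := fun _ : Fin n => nu) (i := i) h

theorem mem (n : ℕ) :
    MemLp (∑ i : Fin n, fun x : Fin n → ℝ => x i ^ 2) 2 (Measure.pi (fun _ => nu)) := by
  apply memLp_finsetSum'
  intro i _
  exact mid.comp_measurePreserving (measurePreserving_eval (fun _ : Fin n => nu) i)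

theorem main (n : ℕ) :
    (∫ x in OPp (fun _ _ : Fin n => False), ∑ i, x i ^ 2 = (n : ℝ) / 3) ∧
    (∫ x in OPp (fun _ _ : Fin n => False), (∑ i, x i ^ 2) ^ 2 =
      4 * (n : ℝ) / 45 + (n : ℝ) ^ 2 / 9) := by
  rw [rest]
  have e1 := mean n
  refine ⟨e1, ?_⟩
  have h := variance_sum_pi (μ := fun _ : Fin n => nu) (X := fun _ t => t ^ 2) (fun _ => mid)
  have hv := variance_eq_sub (mem n)
  rw [h] at hv
  have e2 : ∑ i : Fin n, Var[fun t : ℝ => t ^ 2; nu] = 4 * (n : ℝ) / 45 := by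
    rw [var1]; simp; ring
  rw [e2] at hv
  have e3 : ∫ x : Fin n → ℝ, (∑ i : Fin n, fun x : Fin n → ℝ => x i ^ 2) x
      ∂(Measure.pi (fun _ => nu)) = (n : ℝ) / 3 := by
    rw [← e1]
    apply integral_congr_ae
    refine Eventually.of_forall fun x => ?_
    simp
  rw [e3] at hv
  have e4 : ∫ x : Fin n → ℝ, ((∑ i : Fin n, fun x : Fin n → ℝ => x i ^ 2) ^ 2) x
      ∂(Measure.pi (fun _ => nu)) =
      ∫ x : Fin n → ℝ, (∑ i : Fin n, x i ^ 2) ^ 2 ∂(Measure.pi (fun _ => nu)) := by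
    apply integral_congr_ae
    refine Eventually.of_forall fun x => ?_
    simp
  rw [e4] at hv
  linarith [hv]

end Cube

/-! ### symmetric functions -/

theorem symb {R : Sl n → Sl n → Prop} (hR : ∀ a b, R a b → R (ng b) (ng a))
    {G : (Fin n → ℝ) → ℝ} (hG : Continuous G)
    (hp : ∀ (p : Equiv.Perm (Fin n)) (x : Fin n → ℝ), G (fun i => x (p i)) = G x)
    (he : ∀ (ε : Fin n → Bool) (x : Fin n → ℝ), G (fp ε x) = G x) :
    ∫ x in SPp R, G x = (volume (SPp R)).toReal * ∫ x in OPp (fun _ _ : Fin n => False), G x := by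
  classical
  have h1 : (∫ _x in SPp R, (1 : ℝ)) = (volume (SPp R)).toReal := by
    rw [setIntegral_const]
    simp [Measure.real]
  rw [← h1, int_dec hR hG, int_dec hR (continuous_const (y := (1 : ℝ))), Finset.sum_mul]
  refine Finset.sum_congr rfl fun ε _ => ?_
  have h2 : (∫ _x in OPp (Rp R ε), (1 : ℝ)) = (volume (OPp (Rp R ε))).toReal := by
    rw [setIntegral_const]
    simp [Measure.real]
  simp only [he]
  rw [h2]
  exact Pool.Agent.R372.OP.SYM.main n (Rp R ε) G hG hp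

/-! ### the affine map -/

/-- value of a literal -/
noncomputable def lv (x : Fin n → ℝ) (a : Sl n) : ℝ := if a.2 then x a.1 else 1 - x a.1

/-- relaxation of the 2-CNF formula with the clauses `a ∨ b`, `C a b` -/
def TPp (C : Sl n → Sl n → Prop) : Set (Fin n → ℝ) :=
  {x | (∀ i, 0 ≤ x i ∧ x i ≤ 1) ∧ ∀ a b, C a b → 1 ≤ lv x a + lv x b}

/-- implications -/
def Rc (C : Sl n → Sl n → Prop) (a b : Sl n) : Prop := a ≠ b ∧ (C (ng a) b ∨ C b (ng a))

theorem Rc_closed (C : Sl n → Sl n → Prop) (a b : Sl n) (h : Rc C a b) : Rc C (ng b) (ng a) := by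
  obtain ⟨h1, h2⟩ := h
  refine ⟨fun h => h1 ?_, ?_⟩
  · rw [← ng_ng a, ← h, ng_ng]
  · rw [ng_ng]
    exact h2.symm

theorem Rc_irr (C : Sl n → Sl n → Prop) (a : Sl n) : ¬ Rc C a a := fun h => h.1 rfl

/-- `y ↦ (1 + y) / 2` -/
noncomputable def hf (y : Fin n → ℝ) : Fin n → ℝ := (1 / 2 : ℝ) • (y + fun _ => 1)

theorem hf_apply (y : Fin n → ℝ) (i : Fin n) : hf y i = (1 + y i) / 2 := by
  unfold hf
  simp only [Pi.smul_apply, Pi.add_apply, smul_eq_mul]
  ring

theorem lv_hf (y : Fin n → ℝ) (a : Sl n) : lv (hf y) a = (1 + vl y a) / 2 := by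
  unfold lv vl sg
  rw [hf_apply]
  split_ifs <;> ring

theorem vl_ng (y : Fin n → ℝ) (a : Sl n) : vl y (ng a) = - vl y a := by
  unfold vl ng
  rw [sg_not]
  ring

theorem mem_hf (C : Sl n → Sl n → Prop) (y : Fin n → ℝ) : hf y ∈ TPp C ↔ y ∈ SPp (Rc C) := by
  constructor
  · rintro ⟨h1, h2⟩
    refine ⟨fun i => ?_, fun a b hab => ?_⟩
    · have := h1 i
      rw [hf_apply] at this
      rw [abs_le]
      constructor <;> linarith [this.1, this.2]
    · rcases hab.2 with h | h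
      · have := h2 _ _ h
        rw [lv_hf, lv_hf, vl_ng] at this
        linarith
      · have := h2 _ _ h
        rw [lv_hf, lv_hf, vl_ng] at this
        linarith
  · rintro ⟨h1, h2⟩
    refine ⟨fun i => ?_, fun a b hab => ?_⟩
    · have := abs_le.1 (h1 i)
      rw [hf_apply]
      constructor <;> linarith [this.1, this.2]
    · rw [lv_hf, lv_hf]
      by_cases h : ng a = b
      · rw [← h, vl_ng]
        linarith
      · have := h2 (ng a) b ⟨h, Or.inl (by rwa [ng_ng])⟩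
        rw [vl_ng] at this
        linarith

theorem TPp_closed (C : Sl n → Sl n → Prop) : IsClosed (TPp C) := by
  have h : TPp C = (⋂ i, ({x | 0 ≤ x i} ∩ {x | x i ≤ 1})) ∩
      ⋂ a, ⋂ b, ⋂ (_ : C a b), {x | 1 ≤ lv x a + lv x b} := by
    ext x; simp only [TPp, mem_ofPred_eq, mem_inter_iff, mem_iInter]
  rw [h]
  have hc : ∀ a : Sl n, Continuous (fun x : Fin n → ℝ => lv x a) := by
    intro a; unfold lv; split_ifs <;> fun_prop
  exact (isClosed_iInter fun i => (isClosed_le continuous_const (continuous_apply i)).inter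
    (isClosed_le (continuous_apply i) continuous_const)).inter
    (isClosed_iInter fun a => isClosed_iInter fun b => isClosed_iInter fun _ =>
      isClosed_le continuous_const ((hc a).add (hc b)))

theorem int_hf (C : Sl n → Sl n → Prop) (G : (Fin n → ℝ) → ℝ) :
    ∫ y in SPp (Rc C), G (hf y) = 2 ^ n * ∫ x in TPp C, G x := by
  rw [← integral_indicator (SPp_closed _).measurableSet,
    ← integral_indicator (TPp_closed C).measurableSet]
  have h1 : ∀ y, (SPp (Rc C)).indicator (fun y => G (hf y)) y =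
      (TPp C).indicator G ((1 / 2 : ℝ) • (y + fun _ => 1)) := by
    intro y
    by_cases h : y ∈ SPp (Rc C)
    · rw [indicator_of_mem h]
      have h2 : (1 / 2 : ℝ) • (y + fun _ => (1 : ℝ)) ∈ TPp C := (mem_hf C y).2 h
      rw [indicator_of_mem h2]
      rfl
    · rw [indicator_of_notMem h]
      have h2 : (1 / 2 : ℝ) • (y + fun _ => (1 : ℝ)) ∉ TPp C := fun h3 => h ((mem_hf C y).1 h3)
      rw [indicator_of_notMem h2]
  simp only [h1]
  rw [integral_add_right_eq_self (fun y => (TPp C).indicator G ((1 / 2 : ℝ) • y)) (fun _ => (1 : ℝ)),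
    Measure.integral_comp_smul]
  rw [Module.finrank_fin_fun, smul_eq_mul]
  congr 1
  rw [one_div, inv_pow, inv_inv, abs_of_pos (by positivity)]

theorem vol_hf (C : Sl n → Sl n → Prop) :
    (volume (SPp (Rc C))).toReal = 2 ^ n * (volume (TPp C)).toReal := by
  have h := int_hf C (fun _ => (1 : ℝ))
  rw [setIntegral_const, setIntegral_const] at h
  simpa [Measure.real] using h

theorem pd_hf {f : (Fin n → ℝ) → ℝ} (h : ContDiff ℝ 1 f) (a : Fin n)
    (y : Fin n → ℝ) : pd (fun y => f (hf y)) a y = 1 / 2 * pd f a (hf y) := by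
  have hl : HasFDerivAt (hf (n := n))
      ((1 / 2 : ℝ) • ContinuousLinearMap.id ℝ (Fin n → ℝ)) y := by
    have h1 : HasFDerivAt (fun y : Fin n → ℝ => y + fun _ => (1 : ℝ))
      (ContinuousLinearMap.id ℝ (Fin n → ℝ)) y := (hasFDerivAt_id y).add_const _
    exact h1.const_smul (1 / 2 : ℝ)
  have hd : HasFDerivAt f (fderiv ℝ f (hf y)) (hf y) :=
    (h.differentiable one_ne_zero _).hasFDerivAt
  have hc := hd.comp y hl
  have e1 : fderiv ℝ (fun y => f (hf y)) y = (fderiv ℝ f (hf y)).comp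
      ((1 / 2 : ℝ) • ContinuousLinearMap.id ℝ (Fin n → ℝ)) := hc.fderiv
  unfold pd
  rw [e1]
  simp

/-- Poincare's inequality for the relaxations -/
theorem poit (C : Sl n → Sl n → Prop) {f : (Fin n → ℝ) → ℝ} (h : ContDiff ℝ 1 f) :
    (volume (TPp C)).toReal * (∫ x in TPp C, f x ^ 2) - (∫ x in TPp C, f x) ^ 2 ≤
      (volume (TPp C)).toReal * (1 / Real.pi ^ 2 * ∫ x in TPp C, ∑ a, pd f a x ^ 2) := by
  have hfh : ContDiff ℝ 1 (fun y => f (hf y)) := by
    apply h.comp
    unfold hf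
    fun_prop
  have h1 := poib (Rc_closed C) (Rc_irr C) hfh
  simp only [pd_hf h] at h1
  rw [int_hf C f, int_hf C (fun x => f x ^ 2), vol_hf C,
    int_hf C (fun x => ∑ a, (1 / 2 * pd f a x) ^ 2)] at h1
  have h2 : ∫ x in TPp C, ∑ a, (1 / 2 * pd f a x) ^ 2 =
      1 / 4 * ∫ x in TPp C, ∑ a, pd f a x ^ 2 := by
    rw [← integral_const_mul]
    refine integral_congr_ae (Eventually.of_forall fun x => ?_)
    simp only [mul_pow, ← Finset.mul_sum]
    norm_num
  rw [h2] at h1
  have h4 : (0 : ℝ) < 2 ^ n * 2 ^ n := by positivity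
  refine le_of_mul_le_mul_left ?_ h4
  calc _ = 2 ^ n * (volume (TPp C)).toReal * (2 ^ n * ∫ x in TPp C, f x ^ 2) -
      (2 ^ n * ∫ x in TPp C, f x) ^ 2 := by ring
    _ ≤ _ := h1
    _ = _ := by ring

/-- moments of the distance to the centre of the cube -/
theorem momt (C : Sl n → Sl n → Prop) :
    (∫ x in TPp C, ∑ i, (2 * x i - 1) ^ 2 = (volume (TPp C)).toReal * ((n : ℝ) / 3)) ∧
    (∫ x in TPp C, (∑ i, (2 * x i - 1) ^ 2) ^ 2 =
      (volume (TPp C)).toReal * (4 * (n : ℝ) / 45 + (n : ℝ) ^ 2 / 9)) := by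
  have hp : ∀ (p : Equiv.Perm (Fin n)) (x : Fin n → ℝ), ∑ i, x (p i) ^ 2 = ∑ i, x i ^ 2 :=
    fun p x => Equiv.sum_comp p (fun i => x i ^ 2)
  have he : ∀ (ε : Fin n → Bool) (x : Fin n → ℝ), ∑ i, fp ε x i ^ 2 = ∑ i, x i ^ 2 := by
    intro ε x
    refine Finset.sum_congr rfl fun i _ => ?_
    unfold fp
    rw [mul_pow, sq (sg _), sg_sq, one_mul]
  have e : ∀ (y : Fin n → ℝ), ∑ i, y i ^ 2 = ∑ i, (2 * hf y i - 1) ^ 2 := by
    intro y
    refine Finset.sum_congr rfl fun i _ => ?_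
    rw [hf_apply]
    ring
  have h2 : (0 : ℝ) < 2 ^ n := by positivity
  obtain ⟨c1, c2⟩ := Cube.main n
  constructor
  · have h1 := symb (Rc_closed C) (G := fun x => ∑ i, x i ^ 2) (by fun_prop) hp he
    rw [c1, vol_hf C] at h1
    have e5 : ∫ x in SPp (Rc C), ∑ i, x i ^ 2 =
        ∫ y in SPp (Rc C), (fun x : Fin n → ℝ => ∑ i, (2 * x i - 1) ^ 2) (hf y) :=
      integral_congr_ae (Eventually.of_forall e)
    rw [e5, int_hf C (fun x => ∑ i, (2 * x i - 1) ^ 2)] at h1
    refine mul_left_cancel₀ h2.ne' ?_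
    rw [h1]
    ring
  · have h1 := symb (Rc_closed C) (G := fun x => (∑ i, x i ^ 2) ^ 2) (by fun_prop)
      (fun p x => by rw [hp]) (fun ε x => by rw [he])
    rw [c2, vol_hf C] at h1
    have e5 : ∫ x in SPp (Rc C), (∑ i, x i ^ 2) ^ 2 =
        ∫ y in SPp (Rc C), (fun x : Fin n → ℝ => (∑ i, (2 * x i - 1) ^ 2) ^ 2) (hf y) := by
      refine integral_congr_ae (Eventually.of_forall fun y => ?_)
      beta_reduce
      rw [e y]
    rw [e5, int_hf C (fun x => (∑ i, (2 * x i - 1) ^ 2) ^ 2)] at h1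
    refine mul_left_cancel₀ h2.ne' ?_
    rw [h1]
    ring

end Pool.Agent.L0h99.SO
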