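import Pool.Agent.L0h99.SO.Lat
import Pool.Agent.R780.OP.Pt

/-!
# Signed order polytopes: decomposition of the placements by sign patterns
-/

set_option autoImplicit false
set_option linter.unusedSectionVars false
set_option linter.unusedVariables false

namespace Pool.Agent.L0h99.SO

open Finset
open Pool.Agent.R972.OP (cfg mv QQ)
open Pool.Agent.R780.OP (mem_cfg mv_apply)

/-- signed labels -/
abbrev Sl (n : ℕ) : Type := Fin n × Bool

/-- change of sign -/
def ng {n : ℕ} (a : Sl n) : Sl n := (a.1, !a.2)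

theorem ng_ng {n : ℕ} (a : Sl n) : ng (ng a) = a := by
  unfold ng; simp

variable {n N : ℕ} {R : Sl n → Sl n → Prop}

/-- relation of the absolute values -/
def Rp (R : Sl n → Sl n → Prop) (ε : Fin n → Bool) (i j : Fin n) : Prop := R (i, ε i) (j, ε j)

/-- consistent sign patterns -/
def Co (R : Sl n → Sl n → Prop) (ε : Fin n → Bool) : Prop := ∀ i j, ¬ R (i, ε i) (j, !(ε j))

/-- placement with given signs and absolute values -/
def enc (N : ℕ) (ε : Fin n → Bool) (g : Fin n → ℕ) : Sl n → ℕ :=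
  fun a => if a.2 = ε a.1 then N + g a.1 else N - 1 - g a.1

theorem enc_pos (ε : Fin n → Bool) (g : Fin n → ℕ) (i : Fin n) : enc N ε g (i, ε i) = N + g i := by
  unfold enc; simp

theorem enc_neg (ε : Fin n → Bool) (g : Fin n → ℕ) (i : Fin n) :
    enc N ε g (i, !(ε i)) = N - 1 - g i := by
  unfold enc; simp

theorem sl_cases (ε : Fin n → Bool) (a : Sl n) : a = (a.1, ε a.1) ∨ a = (a.1, !(ε a.1)) := by
  obtain ⟨i, b⟩ := a
  by_cases h : b = ε i
  · left; simp [h]
  · right
    have : b = !(ε i) := by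
      cases hb : ε i <;> cases b <;> simp_all
    simp [this]

theorem enc_mem {K : ℕ} (hK : K + 1 = 2 * N) (hR : ∀ a b, R a b → R (ng b) (ng a)) {ε : Fin n → Bool}
    (hε : Co R ε) {g : Fin n → ℕ} (hg : g ∈ cfg N (Rp R ε)) : enc N ε g ∈ cfb K ng R := by
  obtain ⟨h1, h2, h3⟩ := mem_cfg.1 hg
  refine mem_cfb.2 ⟨?_, ?_, ?_, ?_⟩
  · intro a
    have := h1 a.1
    unfold enc
    split_ifs <;> omega
  · intro a b hab
    have e1 := h1 a.1
    have e2 := h1 b.1
    unfold enc at hab
    split_ifs at hab with c1 c2 c2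
    · have : a.1 = b.1 := h2 (by omega)
      exact Prod.ext this (by rw [c1, c2, this])
    · omega
    · omega
    · have : a.1 = b.1 := h2 (by omega)
      refine Prod.ext this ?_
      rw [this] at c1
      cases h : ε b.1 <;> cases ha : a.2 <;> cases hb : b.2 <;> simp_all
  · intro a
    have e1 := h1 a.1
    rcases sl_cases ε a with h | h
    · rw [h]
      show enc N ε g (a.1, ε a.1) + enc N ε g (a.1, !(ε a.1)) = K
      rw [enc_pos, enc_neg]
      omega
    · rw [h]
      show enc N ε g (a.1, !(ε a.1)) + enc N ε g (a.1, !!(ε a.1)) = K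
      rw [Bool.not_not, enc_pos, enc_neg]
      omega
  · intro a b hab
    have e1 := h1 a.1
    have e2 := h1 b.1
    rcases sl_cases ε a with ha | ha <;> rcases sl_cases ε b with hb | hb
    · rw [ha, hb] at hab ⊢
      rw [enc_pos, enc_pos]
      have := h3 a.1 b.1 hab
      omega
    · rw [ha, hb] at hab
      exact absurd hab (hε a.1 b.1)
    · rw [ha, hb, enc_pos, enc_neg]
      omega
    · rw [ha, hb] at hab
      have h4 := hR _ _ hab
      unfold ng at h4
      simp only [Bool.not_not] at h4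
      have := h3 b.1 a.1 h4
      rw [ha, hb, enc_neg, enc_neg]
      omega

/-- signs of a placement -/
def dE (N : ℕ) (s : Sl n → ℕ) : Fin n → Bool := fun i => decide (N ≤ s (i, true))

/-- absolute values -/
def dG (N : ℕ) (s : Sl n → ℕ) : Fin n → ℕ :=
  fun i => if N ≤ s (i, true) then s (i, true) - N else N - 1 - s (i, true)

theorem enc_dec {K : ℕ} (hK : K + 1 = 2 * N) {s : Sl n → ℕ} (hs : s ∈ cfb K ng R) :
    enc N (dE N s) (dG N s) = s := by
  obtain ⟨h1, h2, h3, h4⟩ := mem_cfb.1 hs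
  funext a
  obtain ⟨i, b⟩ := a
  have e1 : s (i, true) + s (i, false) = K := h3 (i, true)
  have e2 := h1 (i, true)
  unfold enc dE dG
  by_cases h : N ≤ s (i, true)
  · cases b
    · simp only [h, decide_true, if_true]
      rw [if_neg (by simp)]
      omega
    · simp only [h, decide_true, if_true]
      omega
  · cases b
    · simp only [h, decide_false, if_false, if_true]
      omega
    · simp only [h, decide_false, if_false]
      rw [if_neg (by simp)]
      omega

theorem enc_true {ε : Fin n → Bool} (g : Fin n → ℕ) {i : Fin n} (h : ε i = true) :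
    enc N ε g (i, true) = N + g i := by
  have := enc_pos (N := N) ε g i
  rwa [h] at this

theorem enc_false {ε : Fin n → Bool} (g : Fin n → ℕ) {i : Fin n} (h : ε i = false) :
    enc N ε g (i, true) = N - 1 - g i := by
  have := enc_neg (N := N) ε g i
  rwa [h, Bool.not_false] at this

theorem dec_enc {ε : Fin n → Bool} {g : Fin n → ℕ} (hg : ∀ i, g i < N) :
    dE N (enc N ε g) = ε ∧ dG N (enc N ε g) = g := by
  constructor
  · funext i
    have := hg i
    unfold dE
    by_cases h : ε i = true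
    · rw [enc_true g h, h]
      simp
    · rw [Bool.not_eq_true] at h
      rw [enc_false g h, h]
      simp
      omega
  · funext i
    have := hg i
    unfold dG
    by_cases h : ε i = true
    · rw [enc_true g h]
      simp
    · rw [Bool.not_eq_true] at h
      rw [enc_false g h]
      split_ifs <;> omega

theorem dec_mem {K : ℕ} (hK : K + 1 = 2 * N) {s : Sl n → ℕ} (hs : s ∈ cfb K ng R) :
    Co R (dE N s) ∧ dG N s ∈ cfg N (Rp R (dE N s)) := by
  obtain ⟨h1, h2, h3, h4⟩ := mem_cfb.1 hs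
  have he := enc_dec hK hs
  have hp : ∀ i, s (i, dE N s i) = N + dG N s i := by
    intro i
    conv_lhs => rw [← he]
    rw [(dec_enc (ε := dE N s) (g := dG N s) ?_).1]
    · exact enc_pos _ _ _
    · intro i
      have := h1 (i, true)
      unfold dG
      split_ifs <;> omega
  have hn : ∀ i, s (i, !(dE N s i)) = N - 1 - dG N s i := by
    intro i
    have e1 : s (i, dE N s i) + s (i, !(dE N s i)) = K := h3 (i, dE N s i)
    have e2 := hp i
    omega
  refine ⟨?_, mem_cfg.2 ⟨?_, ?_, ?_⟩⟩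
  · intro i j hij
    have := h4 _ _ hij
    rw [hp, hn] at this
    omega
  · intro i
    have := h1 (i, true)
    unfold dG
    split_ifs <;> omega
  · intro i j hij
    have e1 : s (i, dE N s i) = s (j, dE N s j) := by rw [hp, hp, hij]
    exact congrArg Prod.fst (h2 e1)
  · intro i j hij
    have := h4 _ _ hij
    rw [hp, hp] at this
    omega

open Classical in
/-- sums over the placements -/
theorem sum_dec {K : ℕ} (hK : K + 1 = 2 * N) (hR : ∀ a b, R a b → R (ng b) (ng a))
    (φ : (Sl n → ℕ) → ℝ) : ∑ s ∈ cfb K ng R, φ s =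
      ∑ ε ∈ Finset.univ.filter (fun ε => Co R ε), ∑ g ∈ cfg N (Rp R ε), φ (enc N ε g) := by
  rw [Finset.sum_sigma']
  refine Finset.sum_bij' (fun s _ => (⟨dE N s, dG N s⟩ : Σ _ : Fin n → Bool, Fin n → ℕ))
    (fun p _ => enc N p.1 p.2) ?_ ?_ ?_ ?_ ?_
  · intro s hs
    obtain ⟨h1, h2⟩ := dec_mem hK hs
    rw [Finset.mem_sigma]
    exact ⟨Finset.mem_filter.2 ⟨Finset.mem_univ _, h1⟩, h2⟩
  · rintro ⟨ε, g⟩ hp
    rw [Finset.mem_sigma] at hp
    exact enc_mem hK hR (Finset.mem_filter.1 hp.1).2 hp.2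
  · intro s hs
    exact enc_dec hK hs
  · rintro ⟨ε, g⟩ hp
    rw [Finset.mem_sigma] at hp
    obtain ⟨h1, h2⟩ := dec_enc (ε := ε) (mem_cfg.1 hp.2).1
    simp only [h1, h2]
  · intro s hs
    rw [enc_dec hK hs]

/-- the value of a position -/
noncomputable def zz (N p : ℕ) : ℝ := if N ≤ p then ((p - N : ℕ) : ℝ) else -((N - 1 - p : ℕ) : ℝ)

/-- the point of a placement -/
noncomputable def xs (N : ℕ) (s : Sl n → ℕ) : Fin n → ℝ := fun i => zz N (s (i, true)) / N

/-- signs -/
noncomputable def sg (b : Bool) : ℝ := if b then 1 else -1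

/-- change of signs -/
noncomputable def fp (ε : Fin n → Bool) (y : Fin n → ℝ) : Fin n → ℝ := fun i => sg (ε i) * y i

theorem xs_enc {ε : Fin n → Bool} {g : Fin n → ℕ} (hg : ∀ i, g i < N) :
    xs N (enc N ε g) = fp ε (Pool.Agent.R972.OP.lp N g) := by
  funext i
  have := hg i
  unfold xs fp Pool.Agent.R972.OP.lp
  by_cases h : ε i = true
  · rw [enc_true g h, h]
    unfold zz sg
    rw [if_pos (by omega), if_pos rfl, Nat.add_sub_cancel_left, one_mul]
  · rw [Bool.not_eq_true] at h
    rw [enc_false g h, h]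
    unfold zz sg
    rw [if_neg (by omega), if_neg (by simp), show N - 1 - (N - 1 - g i) = g i by omega]
    ring

theorem zz_central {K p : ℕ} (hK : K + 1 = 2 * N) (hp : p ≤ K) (hN : 0 < N) :
    zz N (rf K (N - 1) (N - 1 + 1) p) = zz N p := by
  by_cases h1 : p = N - 1
  · rw [h1, rf_i]
    unfold zz
    rw [if_pos (by omega), if_neg (by omega), show N - 1 + 1 - N = 0 by omega,
      show N - 1 - (N - 1) = 0 by omega]
    simp
  by_cases h2 : p = N - 1 + 1
  · rw [rf_j K h1 h2, h2]
    unfold zz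
    rw [if_neg (by omega), if_pos (by omega), show N - 1 + 1 - N = 0 by omega,
      show N - 1 - (N - 1) = 0 by omega]
    simp
  rw [rf_o h1 h2 (by omega) (by omega)]

theorem xs_central {K : ℕ} (hK : K + 1 = 2 * N) (hN : 0 < N) {s : Sl n → ℕ} (hs : ∀ a, s a ≤ K) :
    xs N (mb K (N - 1) (N - 1 + 1) s) = xs N s := by
  funext i
  unfold xs
  rw [mb, zz_central hK (hs _) hN]

theorem mb_enc {K : ℕ} (hK : K + 1 = 2 * N) {ε : Fin n → Bool} {g : Fin n → ℕ} (hg : ∀ i, g i < N)
    {k : ℕ} (hk : k + 1 < N) :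
    mb K (N - 2 - k) (N - 2 - k + 1) (enc N ε g) = enc N ε (mv k (k + 1) g) := by
  funext a
  have := hg a.1
  unfold mb enc
  rw [mv_apply]
  by_cases h : a.2 = ε a.1
  · rw [if_pos h, if_pos h]
    unfold rf
    split_ifs <;> omega
  · rw [if_neg h, if_neg h]
    unfold rf
    split_ifs <;> omega

open Classical in
theorem QB_le {K : ℕ} (hK : K + 1 = 2 * N) (hN : 0 < N) (hR : ∀ a b, R a b → R (ng b) (ng a))
    {ε : Fin n → Bool} (hε : Co R ε) {g : Fin n → ℕ} (hg : g ∈ cfg N (Rp R ε)) {c : ℝ} (hc : 0 ≤ c)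
    (f : (Fin n → ℝ) → ℝ) :
    QB K ng R c (fun s => f (xs N s)) N (enc N ε g) ≤
      QQ N (Rp R ε) (fun _ => c) (fun g => f (fp ε (Pool.Agent.R972.OP.lp N g))) g := by
  obtain ⟨h1, h2, h3⟩ := mem_cfg.1 hg
  have hmem := enc_mem hK hR hε hg
  obtain ⟨M, rfl⟩ : ∃ M, N = M + 1 := ⟨N - 1, by omega⟩
  unfold QB QQ
  rw [Finset.sum_range_succ, Nat.add_sub_cancel]
  have h0 : (if mb K M (M + 1) (enc (M + 1) ε g) ∈ cfb K ng R then
      c * (f (xs (M + 1) (mb K M (M + 1) (enc (M + 1) ε g))) - f (xs (M + 1) (enc (M + 1) ε g))) ^ 2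
      else 0) = 0 := by
    have := xs_central hK hN (mem_cfb.1 hmem).1
    rw [Nat.add_sub_cancel] at this
    rw [this]
    simp
  rw [h0, add_zero, ← Finset.sum_range_reflect]
  refine Finset.sum_le_sum fun k hk => ?_
  have hk' := Finset.mem_range.1 hk
  have e1 := mb_enc (ε := ε) hK h1 (k := k) (by omega)
  rw [show M + 1 - 2 - k = M - 1 - k by omega] at e1
  rw [e1]
  split_ifs with c1 c2
  · have h5 := (mem_cfg.1 c2).1
    beta_reduce
    rw [xs_enc h5, xs_enc h1]
  · exfalso
    apply c2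
    obtain ⟨d1, d2, d3, d4⟩ := mem_cfb.1 c1
    refine mem_cfg.2 ⟨?_, Pool.Agent.R780.OP.mv_inj _ _ h2, ?_⟩
    · intro a
      rw [mv_apply]
      have := h1 a
      split_ifs <;> omega
    · intro a b hab
      have := d4 _ _ hab
      rw [enc_pos, enc_pos] at this
      omega
  · positivity
  · exact le_rfl

end Pool.Agent.L0h99.SO
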