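import Pool.Agent.L0h99.SO.Tra
import Pool.Agent.R972.OP.Fin
import Pool.Agent.R972.OP.All2
import Pool.Agent.R711.POBE

/-!
# Relaxations of 2-CNF formulas in Euclidean space
-/

set_option autoImplicit false
set_option linter.unusedSectionVars false
set_option linter.unusedVariables false

namespace Pool.Agent.L0h99.SO

open MeasureTheory Set Filter Topology
open scoped ENNReal InnerProductSpace
open Pool.Agent.W695.KH (Eu EU EV VV Sm Pot Uu)
open Pool.Agent.R972.OP (pd un vpos un_prob un_int un_integrable EV_mono EV_const EV_mul VV_mul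
  var_eq)

variable {n : ℕ}

/-- value of a literal -/
noncomputable def lve (x : Eu (Fin n)) (a : Sl n) : ℝ := if a.2 then x a.1 else 1 - x a.1

/-- relaxation of the 2-CNF formula with the clauses `a ∨ b`, `C a b` -/
def TE (C : Sl n → Sl n → Prop) : Set (Eu (Fin n)) :=
  {x | (∀ i, 0 ≤ x i ∧ x i ≤ 1) ∧ ∀ a b, C a b → 1 ≤ lve x a + lve x b}

theorem pre_eq (C : Sl n → Sl n → Prop) :
    (fun x : Fin n → ℝ => (WithLp.toLp 2 x : Eu (Fin n))) ⁻¹' (TE C) = TPp C := by
  ext x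
  simp [TE, TPp, lve, lv]

theorem tre (C : Sl n → Sl n → Prop) : volume (TE C) = volume (TPp C) ∧
    ∀ G : Eu (Fin n) → ℝ, ∫ x in TE C, G x = ∫ x in TPp C, G (WithLp.toLp 2 x) := by
  have hmp := PiLp.volume_preserving_toLp (Fin n)
  have hme : MeasurableEmbedding (fun x : Fin n → ℝ => (WithLp.toLp 2 x : Eu (Fin n))) :=
    (MeasurableEquiv.toLp 2 (Fin n → ℝ)).measurableEmbedding
  refine ⟨?_, fun G => ?_⟩
  · rw [← pre_eq C]
    exact (hmp.measure_preimage_emb hme (TE C)).symm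
  · rw [← pre_eq C]
    exact (hmp.setIntegral_preimage_emb hme G (TE C)).symm

theorem ce (i : Fin n) : Continuous (fun x : Eu (Fin n) => x i) :=
  (EuclideanSpace.proj (𝕜 := ℝ) i).continuous

theorem TE_closed (C : Sl n → Sl n → Prop) : IsClosed (TE C) := by
  have h : TE C = (⋂ i, ({x : Eu (Fin n) | 0 ≤ x i} ∩ {x | x i ≤ 1})) ∩
      ⋂ a, ⋂ b, ⋂ (_ : C a b), {x : Eu (Fin n) | 1 ≤ lve x a + lve x b} := by
    ext x; simp only [TE, mem_ofPred_eq, mem_inter_iff, mem_iInter]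
  rw [h]
  have hc : ∀ a : Sl n, Continuous (fun x : Eu (Fin n) => lve x a) := by
    intro a
    unfold lve
    split_ifs
    · exact ce _
    · exact continuous_const.sub (ce _)
  exact (isClosed_iInter fun i => (isClosed_le continuous_const (ce i)).inter
    (isClosed_le (ce i) continuous_const)).inter
    (isClosed_iInter fun a => isClosed_iInter fun b => isClosed_iInter fun _ =>
      isClosed_le continuous_const ((hc a).add (hc b)))

theorem TE_compact (C : Sl n → Sl n → Prop) : IsCompact (TE C) := by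
  refine IsCompact.of_isClosed_subset (Pool.Agent.R609.OP.compact (fun _ _ : Fin n => False))
    (TE_closed C) ?_
  intro x hx
  exact ⟨hx.1, fun _ _ h => h.elim⟩

theorem TE_convex (C : Sl n → Sl n → Prop) : Convex ℝ (TE C) := by
  intro x hx y hy a b ha hb hab
  have e : ∀ i, (a • x + b • y) i = a * x i + b * y i := by
    intro i
    simp
  have el : ∀ l : Sl n, lve (a • x + b • y) l = a * lve x l + b * lve y l := by
    intro l
    unfold lve
    rw [e]
    split_ifs
    · rfl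
    · linear_combination (-1 : ℝ) * hab
  refine ⟨fun i => ?_, fun l m hlm => ?_⟩
  · have h1 := hx.1 i
    have h2 := hy.1 i
    rw [e]
    constructor
    · exact add_nonneg (mul_nonneg ha h1.1) (mul_nonneg hb h2.1)
    · nlinarith [mul_le_mul_of_nonneg_left h1.2 ha, mul_le_mul_of_nonneg_left h2.2 hb]
  · rw [el, el]
    have h1 := mul_le_mul_of_nonneg_left (hx.2 l m hlm) ha
    have h2 := mul_le_mul_of_nonneg_left (hy.2 l m hlm) hb
    nlinarith

/-- Poincare's inequality -/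
theorem poie (C : Sl n → Sl n → Prop) (f : Eu (Fin n) → ℝ) (hf : ContDiff ℝ 1 f) :
    VV (TE C) f ≤ 1 / Real.pi ^ 2 * EV (TE C) fun x => ‖fderiv ℝ f x‖ ^ 2 := by
  obtain ⟨hv, hG⟩ := tre C
  have hF : ContDiff ℝ 1 (f ∘ Pool.Agent.R711.POBE.L n) :=
    hf.comp (Pool.Agent.R711.POBE.L n).contDiff
  have h3 := poit C hF
  have e1 : ∫ x in TE C, f x = ∫ x in TPp C, (f ∘ Pool.Agent.R711.POBE.L n) x := hG f
  have e2 : ∫ x in TE C, f x ^ 2 = ∫ x in TPp C, (f ∘ Pool.Agent.R711.POBE.L n) x ^ 2 :=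
    hG fun x => f x ^ 2
  have e3 : ∫ x in TE C, ‖fderiv ℝ f x‖ ^ 2 =
      ∫ x in TPp C, ∑ a, pd (f ∘ Pool.Agent.R711.POBE.L n) a x ^ 2 := by
    rw [hG fun x => ‖fderiv ℝ f x‖ ^ 2]
    simp only [Pool.Agent.R711.POBE.sum_pd]
  rw [← hv, ← e1, ← e2, ← e3] at h3
  simp only [VV, EV]
  set v : ℝ := (volume (TE C)).toReal with hvdef
  have hv0 : 0 ≤ v := ENNReal.toReal_nonneg
  rcases hv0.eq_or_lt with h0 | h0
  · rw [← h0]
    simp
  · have h4 : (∫ x in TE C, f x ^ 2) / v - ((∫ x in TE C, f x) / v) ^ 2 =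
        (v * (∫ x in TE C, f x ^ 2) - (∫ x in TE C, f x) ^ 2) / v ^ 2 := by
      field_simp
    have h5 : 1 / Real.pi ^ 2 * ((∫ x in TE C, ‖fderiv ℝ f x‖ ^ 2) / v) =
        (v * (1 / Real.pi ^ 2 * ∫ x in TE C, ‖fderiv ℝ f x‖ ^ 2)) / v ^ 2 := by
      field_simp
    rw [h4, h5]
    exact div_le_div_of_nonneg_right h3 (by positivity)

/-- four times the squared distance to the centre -/
noncomputable def qq (x : Eu (Fin n)) : ℝ := ∑ i, (2 * x i - 1) ^ 2

theorem qq_cont : Continuous (qq (n := n)) := by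
  unfold qq
  exact continuous_finsetSum _ fun i _ => ((continuous_const.mul (ce i)).sub continuous_const).pow 2

theorem mome (C : Sl n → Sl n → Prop) (hv : 0 < volume (TE C)) :
    EV (TE C) qq = (n : ℝ) / 3 ∧ VV (TE C) qq = 4 * (n : ℝ) / 45 := by
  obtain ⟨hv1, hG⟩ := tre C
  obtain ⟨m1, m2⟩ := momt C
  have hv' : 0 < (volume (TE C)).toReal := ENNReal.toReal_pos hv.ne' (TE_compact C).measure_lt_top.ne
  rw [← hv1] at m1 m2
  have e1 : EV (TE C) qq = (n : ℝ) / 3 := by
    unfold EV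
    rw [hG]
    have : ∫ x in TPp C, qq (WithLp.toLp 2 x : Eu (Fin n)) = ∫ x in TPp C, ∑ i, (2 * x i - 1) ^ 2 :=
      rfl
    rw [this, m1]
    field_simp
  have e2 : EV (TE C) (fun x => qq x ^ 2) = 4 * (n : ℝ) / 45 + (n : ℝ) ^ 2 / 9 := by
    unfold EV
    rw [hG]
    have : ∫ x in TPp C, qq (WithLp.toLp 2 x : Eu (Fin n)) ^ 2 =
        ∫ x in TPp C, (∑ i, (2 * x i - 1) ^ 2) ^ 2 := rfl
    rw [this, m2]
    field_simp
  refine ⟨e1, ?_⟩
  unfold VV
  rw [e1, e2]
  ring

/-! ### the largest variance -/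

section low

variable {K : Set (Eu (Fin n))}

theorem EV_add (hc : IsCompact K) (u v : Eu (Fin n) → ℝ) (hu : Continuous u) (hv : Continuous v) :
    EV K (fun x => u x + v x) = EV K u + EV K v := by
  unfold EV
  rw [integral_add (hu.continuousOn.integrableOn_compact hc)
    (hv.continuousOn.integrableOn_compact hc), add_div]

theorem EV_sum {ι : Type} (s : Finset ι) (hc : IsCompact K) (u : ι → Eu (Fin n) → ℝ)
    (hu : ∀ i ∈ s, Continuous (u i)) :
    EV K (fun x => ∑ i ∈ s, u i x) = ∑ i ∈ s, EV K (u i) := by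
  unfold EV
  rw [integral_finsetSum _ fun i hi => (hu i hi).continuousOn.integrableOn_compact hc,
    Finset.sum_div]

theorem VV_nonneg (hc : IsCompact K) (hv : 0 < volume K) (v : Eu (Fin n) → ℝ) (h : Continuous v) :
    0 ≤ VV K v := by
  rw [← var_eq hc hv v h]
  exact ProbabilityTheory.variance_nonneg _ _

theorem VV_shift (hc : IsCompact K) (hv : 0 < volume K) (v : Eu (Fin n) → ℝ) (h : Continuous v)
    (r : ℝ) : VV K (fun x => v x + r) = VV K v := by
  unfold VV
  rw [EV_add hc v (fun _ => r) h continuous_const, EV_const hc hv]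
  have e : (fun x => (v x + r) ^ 2) = fun x => (v x ^ 2 + 2 * r * v x) + r ^ 2 := by
    funext x; ring
  rw [e, EV_add hc (fun x => v x ^ 2 + 2 * r * v x) (fun _ => r ^ 2) (by fun_prop) continuous_const,
    EV_add hc (fun x => v x ^ 2) (fun x => 2 * r * v x) (by fun_prop) (by fun_prop), EV_mul,
    EV_const hc hv]
  ring

theorem VV_add_le (hc : IsCompact K) (hv : 0 < volume K) (u v : Eu (Fin n) → ℝ)
    (hu : Continuous u) (hvc : Continuous v) :
    VV K (fun x => u x + v x) ≤ 2 * VV K u + 2 * VV K v := by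
  have h0 := VV_nonneg hc hv (fun x => u x + (-1) * v x) (by fun_prop)
  have h1 : VV K (fun x => u x + v x) + VV K (fun x => u x + (-1) * v x) =
      2 * VV K u + 2 * VV K v := by
    unfold VV
    have e1 : (fun x => (u x + v x) ^ 2) = fun x => (u x ^ 2 + 2 * (u x * v x)) + v x ^ 2 := by
      funext x; ring
    have e2 : (fun x => (u x + (-1) * v x) ^ 2) =
        fun x => (u x ^ 2 + (-2) * (u x * v x)) + v x ^ 2 := by
      funext x; ring
    rw [e1, e2, EV_add hc u v hu hvc, EV_add hc u (fun x => (-1) * v x) hu (by fun_prop), EV_mul,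
      EV_add hc (fun x => u x ^ 2 + 2 * (u x * v x)) (fun x => v x ^ 2) (by fun_prop) (by fun_prop),
      EV_add hc (fun x => u x ^ 2 + (-2) * (u x * v x)) (fun x => v x ^ 2) (by fun_prop)
        (by fun_prop),
      EV_add hc (fun x => u x ^ 2) (fun x => 2 * (u x * v x)) (by fun_prop) (by fun_prop),
      EV_add hc (fun x => u x ^ 2) (fun x => (-2) * (u x * v x)) (by fun_prop) (by fun_prop),
      EV_mul, EV_mul]
    ring
  linarith

end low

/-- gradient of a quadratic function -/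
theorem grad_q (m : Eu (Fin n)) (x : Eu (Fin n)) :
    ‖fderiv ℝ (fun x : Eu (Fin n) => ‖x - m‖ ^ 2) x‖ ^ 2 = 4 * ‖x - m‖ ^ 2 := by
  have h1 : HasFDerivAt (fun x : Eu (Fin n) => x - m) (ContinuousLinearMap.id ℝ (Eu (Fin n))) x :=
    (hasFDerivAt_id x).sub_const m
  have h2 := h1.norm_sq
  rw [h2.fderiv]
  have h3 : (2 : ℝ) • (innerSL ℝ (x - m)).comp (ContinuousLinearMap.id ℝ (Eu (Fin n))) =
      (2 : ℝ) • innerSL ℝ (x - m) := by
    rw [ContinuousLinearMap.comp_id]
  rw [show (2 • (innerSL ℝ (x - m)).comp (ContinuousLinearMap.id ℝ (Eu (Fin n))) :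
    Eu (Fin n) →L[ℝ] ℝ) = (2 : ℝ) • innerSL ℝ (x - m) by
      rw [ContinuousLinearMap.comp_id]; ext; simp [two_smul, two_mul], norm_smul, innerSL_apply_norm]
  rw [Real.norm_eq_abs, abs_of_pos (by norm_num : (0 : ℝ) < 2)]
  ring

/-- the largest variance is bounded below -/
theorem low (C : Sl n → Sl n → Prop) (hn : 1 ≤ n) (hv : 0 < volume (TE C)) (s : ℝ)
    (hs : ∀ θ : Eu (Fin n), ‖θ‖ = 1 → VV (TE C) (fun x => ⟪θ, x⟫_ℝ) ≤ s) : 1 / 300 < s := by
  have hc := TE_compact C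
  have hn0 : (0 : ℝ) < n := by exact_mod_cast hn
  obtain ⟨q1, q2⟩ := mome C hv
  have hs0 : 0 ≤ s := by
    have h1 := hs (EuclideanSpace.single (⟨0, hn⟩ : Fin n) 1) (by simp)
    exact (VV_nonneg hc hv _ (by fun_prop)).trans h1
  -- all directions
  have hs' : ∀ θ : Eu (Fin n), VV (TE C) (fun x => ⟪θ, x⟫_ℝ) ≤ ‖θ‖ ^ 2 * s := by
    intro θ
    by_cases h0 : θ = 0
    · subst h0
      have : (fun x : Eu (Fin n) => ⟪(0 : Eu (Fin n)), x⟫_ℝ) = fun _ => (0 : ℝ) := by
        funext x; simp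
      rw [this]
      unfold VV
      simp [EV_const hc hv]
    · have h1 : 0 < ‖θ‖ := norm_pos_iff.2 h0
      have h2 := hs (‖θ‖⁻¹ • θ) (by rw [norm_smul, norm_inv, norm_norm, inv_mul_cancel₀ h1.ne'])
      have h3 : (fun x : Eu (Fin n) => ⟪θ, x⟫_ℝ) = fun x => ‖θ‖ * ⟪‖θ‖⁻¹ • θ, x⟫_ℝ := by
        funext x
        rw [real_inner_smul_left, ← mul_assoc, mul_inv_cancel₀ h1.ne', one_mul]
      rw [h3, VV_mul]
      exact mul_le_mul_of_nonneg_left h2 (by positivity)
  -- the barycentre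
  set m : Eu (Fin n) := WithLp.toLp 2 fun i => EV (TE C) (fun x => x i) with hm
  have hmi : ∀ i, m i = EV (TE C) (fun x => x i) := fun i => rfl
  have hcoord : ∀ i : Fin n, VV (TE C) (fun x => x i) ≤ s := by
    intro i
    have h1 := hs (EuclideanSpace.single i 1) (by simp)
    have h2 : (fun x : Eu (Fin n) => ⟪EuclideanSpace.single i (1 : ℝ), x⟫_ℝ) = fun x => x i := by
      funext x
      rw [EuclideanSpace.inner_single_left]
      simp
    rwa [h2] at h1
  -- second moment of the centred vector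
  have hz : EV (TE C) (fun x => ‖x - m‖ ^ 2) ≤ n * s := by
    have h1 : (fun x : Eu (Fin n) => ‖x - m‖ ^ 2) = fun x => ∑ i, (x i - m i) ^ 2 := by
      funext x
      rw [EuclideanSpace.real_norm_sq_eq]
      rfl
    rw [h1, EV_sum Finset.univ hc (fun i x => (x i - m i) ^ 2)
      (fun i _ => ((ce i).sub continuous_const).pow 2)]
    have h2 : ∀ i ∈ Finset.univ, EV (TE C) (fun x => (x i - m i) ^ 2) ≤ s := by
      intro i _
      refine le_trans (le_of_eq ?_) (hcoord i)
      unfold VV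
      have e : (fun x : Eu (Fin n) => (x i - m i) ^ 2) =
          fun x => (x i ^ 2 + (-2 * m i) * x i) + m i ^ 2 := by
        funext x; ring
      have hci := ce i
      rw [e, EV_add hc (fun x => x i ^ 2 + (-2 * m i) * x i) (fun _ => m i ^ 2) (by fun_prop)
        continuous_const, EV_add hc (fun x => x i ^ 2) (fun x => (-2 * m i) * x i) (by fun_prop)
        (by fun_prop), EV_mul, EV_const hc hv, ← hmi]
      ring
    refine (Finset.sum_le_sum h2).trans (le_of_eq ?_)
    simp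
  -- the point `2 m - (1, ..., 1)`
  set w : Eu (Fin n) := WithLp.toLp 2 fun i => 2 * m i - 1 with hw
  have hwi : ∀ i, w i = 2 * m i - 1 := fun i => rfl
  have hwn : ‖w‖ ^ 2 ≤ n / 3 := by
    rw [EuclideanSpace.real_norm_sq_eq, ← q1]
    have h1 : EV (TE C) qq = ∑ i, EV (TE C) (fun x => (2 * x i - 1) ^ 2) := by
      have : (qq : Eu (Fin n) → ℝ) = fun x => ∑ i, (2 * x i - 1) ^ 2 := rfl
      rw [this, EV_sum Finset.univ hc (fun i x => (2 * x i - 1) ^ 2)
        (fun i _ => ((continuous_const.mul (ce i)).sub continuous_const).pow 2)]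
    rw [h1]
    refine Finset.sum_le_sum fun i _ => ?_
    have h2 := VV_nonneg hc hv (fun x => 2 * x i + (-1)) (by have := ce i; fun_prop)
    unfold VV at h2
    have hci := ce i
    rw [EV_add hc (fun x => 2 * x i) (fun _ => -1) (by fun_prop) continuous_const, EV_mul,
      EV_const hc hv] at h2
    rw [hwi, hmi]
    have e : (fun x : Eu (Fin n) => (2 * x i + -1) ^ 2) = fun x => (2 * x i - 1) ^ 2 := by
      funext x; ring
    rw [e] at h2
    linarith
  -- decomposition of `qq`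
  have hdec : (qq : Eu (Fin n) → ℝ) = fun x => (4 * ‖x - m‖ ^ 2 + 4 * ⟪w, x⟫_ℝ) +
      (‖w‖ ^ 2 - 4 * ⟪w, m⟫_ℝ) := by
    funext x
    unfold qq
    rw [EuclideanSpace.real_norm_sq_eq, EuclideanSpace.real_norm_sq_eq, PiLp.inner_apply,
      PiLp.inner_apply, Finset.mul_sum, Finset.mul_sum, Finset.mul_sum, ← Finset.sum_add_distrib,
      ← Finset.sum_sub_distrib, ← Finset.sum_add_distrib]
    refine Finset.sum_congr rfl fun i _ => ?_
    have e1 : (x - m) i = x i - m i := rfl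
    rw [e1, hwi]
    simp only [RCLike.inner_apply, conj_trivial, hwi]
    ring
  have hcn : Continuous (fun x : Eu (Fin n) => ‖x - m‖ ^ 2) := by fun_prop
  have hvn : VV (TE C) (fun x => ‖x - m‖ ^ 2) ≤ 1 / Real.pi ^ 2 * (4 * (n * s)) := by
    have h1 := poie C (fun x => ‖x - m‖ ^ 2) (by
      exact (contDiff_id.sub contDiff_const).norm_sq ℝ)
    refine h1.trans ?_
    refine mul_le_mul_of_nonneg_left ?_ (by positivity)
    have h2 : (fun x : Eu (Fin n) => ‖fderiv ℝ (fun x : Eu (Fin n) => ‖x - m‖ ^ 2) x‖ ^ 2) =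
        fun x => 4 * ‖x - m‖ ^ 2 := by
      funext x; exact grad_q m x
    rw [h2, EV_mul]
    linarith
  have hq : VV (TE C) qq ≤ 2 * (16 * VV (TE C) (fun x => ‖x - m‖ ^ 2)) +
      2 * (16 * VV (TE C) (fun x => ⟪w, x⟫_ℝ)) := by
    rw [hdec, VV_shift hc hv (fun x => 4 * ‖x - m‖ ^ 2 + 4 * ⟪w, x⟫_ℝ) (by fun_prop)]
    refine (VV_add_le hc hv (fun x => 4 * ‖x - m‖ ^ 2) (fun x => 4 * ⟪w, x⟫_ℝ) (by fun_prop)
      (by fun_prop)).trans (le_of_eq ?_)
    rw [VV_mul, VV_mul]
    norm_num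
  have h1 := hs' w
  have hpi : (3.14 : ℝ) < Real.pi := Real.pi_gt_d2
  have hpi2 : (9.8 : ℝ) < Real.pi ^ 2 := by nlinarith
  have h3 : 1 / Real.pi ^ 2 * (4 * (n * s)) ≤ 0.41 * (n * s) := by
    have h4 : 1 / Real.pi ^ 2 ≤ 1 / 9.8 := one_div_le_one_div_of_le (by norm_num) hpi2.le
    have h5 : 0 ≤ 4 * (n * s) := by positivity
    have h6 := mul_le_mul_of_nonneg_right h4 h5
    have h7 : (0 : ℝ) ≤ n * s := by positivity
    norm_num at h6 ⊢
    linarith
  have h4 : ‖w‖ ^ 2 * s ≤ n / 3 * s := mul_le_mul_of_nonneg_right hwn hs0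
  rw [q2] at hq
  have h5 : 4 * (n : ℝ) / 45 ≤ 2 * (16 * (0.41 * (n * s))) + 2 * (16 * (n / 3 * s)) := by linarith
  by_contra hcon
  push Not at hcon
  have h6 : n * s ≤ n * (1 / 300) := mul_le_mul_of_nonneg_left hcon hn0.le
  nlinarith

end Pool.Agent.L0h99.SO
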