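import Pool.Agent.L0h99.SO.Euc

/-!
# Relaxations of 2-CNF formulas: isoperimetry
-/

set_option autoImplicit false
set_option linter.unusedSectionVars false
set_option linter.unusedVariables false

namespace Pool.Agent.L0h99.SO

open MeasureTheory Set Filter Topology
open scoped ENNReal InnerProductSpace
open Pool.Agent.W695.KH (Eu EU EV VV Sm Pot Uu)
open Pool.Agent.R972.OP (pd un vpos un_prob un_int un_integrable EV_mono EV_const EV_mul VV_mul
  var_eq)

variable {n : ℕ}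

theorem all_t (C : Sl n → Sl n → Prop) (hv : 0 < volume (TE C)) (S : Set (Eu (Fin n)))
    (hS : MeasurableSet S) : un (TE C) S * (1 - un (TE C) S) ≤ ENNReal.ofReal (4 / Real.pi) *
    liminf (fun ε : ℝ => (un (TE C) (Metric.thickening ε S) - un (TE C) S) / ENNReal.ofReal ε)
      (𝓝[>] 0) := by
  have hpi : 0 < Real.pi := Real.pi_pos
  refine Pool.Agent.W695.KH.mink (Fin n) (TE C) (TE_compact C) (TE_convex C) hv (4 / Real.pi)
    (by positivity) ?_ (un (TE C)) rfl S hS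
  intro f L M hf hb
  have h1 := Pool.Agent.R972.OP.bodl_all (Fin n) (TE C) (TE_compact C) (TE_convex C) hv
    (1 / Real.pi ^ 2) (by positivity) (fun v hv1 => poie C v hv1) f L M hf hb
  have h2 : 4 * Real.sqrt (1 / Real.pi ^ 2) = 4 / Real.pi := by
    rw [Real.sqrt_div zero_le_one, Real.sqrt_one, Real.sqrt_sq hpi.le]
    ring
  rwa [h2] at h1

/-- **Cheeger's inequality**, all measurable sets -/
theorem sets_t (C : Sl n → Sl n → Prop) (hi : (interior (TE C)).Nonempty) (S : Set (Eu (Fin n)))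
    (hS : MeasurableSet S) :
    ENNReal.ofReal (Real.pi / 8) * min (un (TE C) S) (1 - un (TE C) S) ≤
      liminf (fun ε : ℝ =>
        (un (TE C) (Metric.thickening ε S) - un (TE C) S) / ENNReal.ofReal ε) (𝓝[>] 0) := by
  have hv := vpos hi
  have hc := TE_compact C
  have hprob := un_prob hc hv
  have hpi : 0 < Real.pi := Real.pi_pos
  have key := all_t C hv S hS
  obtain ⟨I, hI⟩ : ∃ I : ℝ≥0∞, I = liminf (fun ε : ℝ =>
    (un (TE C) (Metric.thickening ε S) - un (TE C) S) / ENNReal.ofReal ε) (𝓝[>] 0) := ⟨_, rfl⟩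
  rw [← hI] at key ⊢
  obtain ⟨a, ha⟩ : ∃ a : ℝ≥0∞, a = un (TE C) S := ⟨_, rfl⟩
  rw [← ha] at key ⊢
  have ha1 : a ≤ 1 := by rw [ha]; exact prob_le_one
  have hadd : a + (1 - a) = 1 := add_tsub_cancel_of_le ha1
  have hmin : min a (1 - a) ≤ 2 * (a * (1 - a)) := by
    rcases le_total a (1 - a) with h1 | h1
    · have h2 : 1 ≤ 2 * (1 - a) := by
        calc (1 : ℝ≥0∞) = a + (1 - a) := hadd.symm
          _ ≤ (1 - a) + (1 - a) := by gcongr
          _ = 2 * (1 - a) := (two_mul _).symm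
      calc min a (1 - a) ≤ a * 1 := by rw [mul_one]; exact min_le_left _ _
        _ ≤ a * (2 * (1 - a)) := by gcongr
        _ = _ := by ring
    · have h2 : 1 ≤ 2 * a := by
        calc (1 : ℝ≥0∞) = a + (1 - a) := hadd.symm
          _ ≤ a + a := by gcongr
          _ = 2 * a := (two_mul _).symm
      calc min a (1 - a) ≤ 1 * (1 - a) := by rw [one_mul]; exact min_le_right _ _
        _ ≤ 2 * a * (1 - a) := by gcongr
        _ = _ := by ring
  calc ENNReal.ofReal (Real.pi / 8) * min a (1 - a)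
      ≤ ENNReal.ofReal (Real.pi / 8) * (2 * (a * (1 - a))) := by gcongr
    _ ≤ ENNReal.ofReal (Real.pi / 8) * (2 * (ENNReal.ofReal (4 / Real.pi) * I)) := by gcongr
    _ = (ENNReal.ofReal (Real.pi / 8) * ENNReal.ofReal 2 * ENNReal.ofReal (4 / Real.pi)) * I := by
        rw [ENNReal.ofReal_ofNat]
        ring
    _ = I := by
        rw [← ENNReal.ofReal_mul (by positivity), ← ENNReal.ofReal_mul (by positivity)]
        have : Real.pi / 8 * 2 * (4 / Real.pi) = 1 := by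
          field_simp
          norm_num
        rw [this, ENNReal.ofReal_one, one_mul]

/-- halfspace form -/
theorem half_t : ∃ c : ℝ, 0 < c ∧
    ∀ (n : ℕ) (C : Sl n → Sl n → Prop), 1 ≤ n → (interior (TE C)).Nonempty → ∀ t : ℝ≥0∞,
    (∀ (θ : Eu (Fin n)) (b : ℝ), ‖θ‖ = 1 →
      t * min (un (TE C) {x | ⟪θ, x⟫_ℝ ≤ b}) (1 - un (TE C) {x | ⟪θ, x⟫_ℝ ≤ b}) ≤
      liminf (fun ε : ℝ => (un (TE C) (Metric.thickening ε {x | ⟪θ, x⟫_ℝ ≤ b}) -
        un (TE C) {x | ⟪θ, x⟫_ℝ ≤ b}) / ENNReal.ofReal ε) (𝓝[>] 0)) →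
    ∀ S : Set (Eu (Fin n)), MeasurableSet S →
      ENNReal.ofReal c * t * min (un (TE C) S) (1 - un (TE C) S) ≤
      liminf (fun ε : ℝ =>
        (un (TE C) (Metric.thickening ε S) - un (TE C) S) / ENNReal.ofReal ε) (𝓝[>] 0) := by
  obtain ⟨C₀, hC₀, HH⟩ := Pool.Agent.Y211.FF.half
  have hpi : 0 < Real.pi := Real.pi_pos
  refine ⟨Real.pi / 8 / Real.sqrt (300 * C₀), by positivity, ?_⟩
  intro n C hn hi t ht S hS
  have hv := vpos hi
  have hc := TE_compact C
  have hco := TE_convex C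
  have hprob := un_prob hc hv
  refine le_trans ?_ (sets_t C hi S hS)
  obtain ⟨θ, hθ, hvar⟩ : ∃ θ : Eu (Fin n), ‖θ‖ = 1 ∧ 1 / 300 < VV (TE C) (fun x => ⟪θ, x⟫_ℝ) := by
    by_contra hcon
    push Not at hcon
    exact lt_irrefl _ (low C hn hv (1 / 300) hcon)
  obtain ⟨m, hm⟩ := HH (Fin n) (TE C) hc hco hi (un (TE C)) rfl θ t hθ (fun b => ht θ b hθ)
  have hcont : Continuous fun x : Eu (Fin n) => (⟪θ, x⟫_ℝ - m) ^ 2 := by fun_prop
  rw [← ofReal_integral_eq_lintegral_ofReal (un_integrable hc hv _ hcont)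
    (Eventually.of_forall fun x => sq_nonneg _)] at hm
  have h3 : (1 / 300 : ℝ) ≤ ∫ x, (⟪θ, x⟫_ℝ - m) ^ 2 ∂(un (TE C)) := by
    have h4 : ProbabilityTheory.variance (fun x => ⟪θ, x⟫_ℝ - m) (un (TE C)) =
        ProbabilityTheory.variance (fun x => ⟪θ, x⟫_ℝ) (un (TE C)) :=
      ProbabilityTheory.variance_sub_const (by fun_prop) m
    rw [var_eq hc hv (fun x => ⟪θ, x⟫_ℝ) (by fun_prop)] at h4
    refine hvar.le.trans ?_
    rw [← h4]
    exact ProbabilityTheory.variance_le_expectation_sq (by fun_prop)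
  have h5 : t ^ 2 * ENNReal.ofReal (1 / 300) ≤ ENNReal.ofReal C₀ :=
    (mul_le_mul_right (ENNReal.ofReal_le_ofReal h3) _).trans hm
  have ht2 : t ^ 2 ≤ ENNReal.ofReal (300 * C₀) := by
    have e : ENNReal.ofReal (300 * C₀) = ENNReal.ofReal C₀ * ENNReal.ofReal 300 := by
      rw [← ENNReal.ofReal_mul hC₀.le, mul_comm]
    rw [e]
    calc t ^ 2 = t ^ 2 * ENNReal.ofReal (1 / 300) * ENNReal.ofReal 300 := by
          rw [mul_assoc, ← ENNReal.ofReal_mul (by norm_num)]
          norm_num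
      _ ≤ _ := mul_le_mul_left h5 _
  have ht3 : t ≤ ENNReal.ofReal (Real.sqrt (300 * C₀)) := by
    have e : ENNReal.ofReal (300 * C₀) = ENNReal.ofReal (Real.sqrt (300 * C₀)) ^ 2 := by
      rw [← ENNReal.ofReal_pow (Real.sqrt_nonneg _), Real.sq_sqrt (by positivity)]
    rw [e] at ht2
    exact (ENNReal.pow_le_pow_left_iff two_ne_zero).1 ht2
  have h6 : ENNReal.ofReal (Real.pi / 8 / Real.sqrt (300 * C₀)) * t ≤
      ENNReal.ofReal (Real.pi / 8) := by
    calc _ ≤ ENNReal.ofReal (Real.pi / 8 / Real.sqrt (300 * C₀)) *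
          ENNReal.ofReal (Real.sqrt (300 * C₀)) := mul_le_mul_right ht3 _
      _ = ENNReal.ofReal (Real.pi / 8) := by
          have h0 : 0 < Real.sqrt (300 * C₀) := by positivity
          rw [← ENNReal.ofReal_mul (by positivity), div_mul_cancel₀ _ h0.ne']
  exact mul_le_mul' h6 le_rfl

/-- Poincare inequality for the uniform measure -/
theorem poi_un (C : Sl n → Sl n → Prop) (hi : (interior (TE C)).Nonempty) (f : Eu (Fin n) → ℝ)
    (hf : ContDiff ℝ 1 f) : ProbabilityTheory.variance f (un (TE C)) ≤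
      1 / Real.pi ^ 2 * ∫ x, ‖fderiv ℝ f x‖ ^ 2 ∂(un (TE C)) := by
  have hv := vpos hi
  rw [var_eq (TE_compact C) hv f hf.continuous, un_int]
  exact poie C f hf

end Pool.Agent.L0h99.SO
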