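import Pool.Agent.L0h99.SO.Dec
import Pool.Agent.R364.OP.RS
import Pool.Agent.R372.OP.SYM

/-!
# Signed order polytopes: decomposition of integrals by sign patterns
-/

set_option autoImplicit false
set_option linter.unusedSectionVars false
set_option linter.unusedVariables false

namespace Pool.Agent.L0h99.SO

open MeasureTheory Set Filter Topology
open Pool.Agent.R972.OP (OPp)

variable {n : ℕ} {R : Sl n → Sl n → Prop}

/-- value of a signed label -/
noncomputable def vl (x : Fin n → ℝ) (a : Sl n) : ℝ := sg a.2 * x a.1

/-- signed order polytope -/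
def SPp (R : Sl n → Sl n → Prop) : Set (Fin n → ℝ) :=
  {x | (∀ i, |x i| ≤ 1) ∧ ∀ a b, R a b → vl x a ≤ vl x b}

theorem sg_sq (b : Bool) : sg b * sg b = 1 := by cases b <;> simp [sg]

theorem sg_abs (b : Bool) : |sg b| = 1 := by cases b <;> simp [sg]

theorem sg_not (b : Bool) : sg (!b) = - sg b := by cases b <;> simp [sg]

theorem fp_fp (ε : Fin n → Bool) (y : Fin n → ℝ) : fp ε (fp ε y) = y := by
  funext i
  unfold fp
  rw [← mul_assoc, sg_sq, one_mul]

theorem vl_pos (ε : Fin n → Bool) (y : Fin n → ℝ) (i : Fin n) : vl (fp ε y) (i, ε i) = y i := by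
  unfold vl fp
  rw [← mul_assoc, sg_sq, one_mul]

theorem vl_neg (ε : Fin n → Bool) (y : Fin n → ℝ) (i : Fin n) :
    vl (fp ε y) (i, !(ε i)) = - y i := by
  unfold vl fp
  rw [sg_not, ← mul_assoc, neg_mul, sg_sq]
  ring

/-- the signed order polytope in the orthant `ε` -/
theorem mem_orth (hR : ∀ a b, R a b → R (ng b) (ng a)) (ε : Fin n → Bool) {y : Fin n → ℝ}
    (hy : ∀ i, 0 < y i) : fp ε y ∈ SPp R ↔ Co R ε ∧ y ∈ OPp (Rp R ε) := by
  constructor
  · rintro ⟨h1, h2⟩
    refine ⟨?_, ?_, ?_⟩
    · intro i j hij
      have := h2 _ _ hij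
      rw [vl_pos, vl_neg] at this
      linarith [hy i, hy j]
    · intro i
      refine ⟨(hy i).le, ?_⟩
      have := h1 i
      unfold fp at this
      rw [abs_mul, sg_abs, one_mul] at this
      exact (le_abs_self _).trans this
    · intro i j hij
      have := h2 _ _ hij
      rwa [vl_pos, vl_pos] at this
  · rintro ⟨hε, h1, h2⟩
    refine ⟨?_, ?_⟩
    · intro i
      unfold fp
      rw [abs_mul, sg_abs, one_mul, abs_of_pos (hy i)]
      exact (h1 i).2
    · intro a b hab
      rcases sl_cases ε a with ha | ha <;> rcases sl_cases ε b with hb | hb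
      · rw [ha, hb] at hab ⊢
        rw [vl_pos, vl_pos]
        exact h2 _ _ hab
      · rw [ha, hb] at hab
        exact absurd hab (hε a.1 b.1)
      · rw [ha, hb, vl_neg, vl_pos]
        linarith [hy a.1, hy b.1]
      · rw [ha, hb] at hab
        have h4 := hR _ _ hab
        unfold ng at h4
        simp only [Bool.not_not] at h4
        rw [ha, hb, vl_neg, vl_neg]
        exact neg_le_neg (h2 _ _ h4)

theorem fp_cont (ε : Fin n → Bool) : Continuous (fp ε) := by
  unfold fp
  fun_prop

theorem fp_mp (ε : Fin n → Bool) : MeasurePreserving (fp ε) volume volume := by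
  have h : MeasurePreserving (fun (y : Fin n → ℝ) i => sg (ε i) * y i) volume volume := by
    apply volume_preserving_pi
    intro i
    cases h : ε i
    · have : (HMul.hMul (sg false) : ℝ → ℝ) = fun y => -y := by
        funext y; simp [sg]
      rw [this]
      exact Measure.measurePreserving_neg volume
    · have : (HMul.hMul (sg true) : ℝ → ℝ) = id := by
        funext y; simp [sg]
      rw [this]
      exact MeasurePreserving.id _
  exact h

/-- as an equivalence -/
noncomputable def fpE (ε : Fin n → Bool) : (Fin n → ℝ) ≃ᵐ (Fin n → ℝ) where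
  toFun := fp ε
  invFun := fp ε
  left_inv := fp_fp ε
  right_inv := fp_fp ε
  measurable_toFun := (fp_cont ε).measurable
  measurable_invFun := (fp_cont ε).measurable

theorem fp_int (ε : Fin n → Bool) (H : (Fin n → ℝ) → ℝ) : ∫ y, H (fp ε y) = ∫ x, H x :=
  (fp_mp ε).integral_comp (fpE ε).measurableEmbedding H

theorem SPp_closed (R : Sl n → Sl n → Prop) : IsClosed (SPp R) := by
  have h : SPp R = (⋂ i, {x | |x i| ≤ 1}) ∩
      ⋂ a, ⋂ b, ⋂ (_ : R a b), {x | vl x a ≤ vl x b} := by
    ext x; simp only [SPp, mem_ofPred_eq, mem_inter_iff, mem_iInter]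
  rw [h]
  have hc : ∀ a : Sl n, Continuous (fun x : Fin n → ℝ => vl x a) := by
    intro a; unfold vl; fun_prop
  exact (isClosed_iInter fun i => isClosed_le (continuous_apply i).abs continuous_const).inter
    (isClosed_iInter fun a => isClosed_iInter fun b => isClosed_iInter fun _ =>
      isClosed_le (hc a) (hc b))

theorem SPp_compact (R : Sl n → Sl n → Prop) : IsCompact (SPp R) := by
  refine IsCompact.of_isClosed_subset (isCompact_univ_pi (fun _ : Fin n => isCompact_Icc (a := (-1:ℝ))
    (b := 1))) (SPp_closed R) ?_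
  intro x hx
  rw [mem_univ_pi]
  intro i
  exact abs_le.1 (hx.1 i)

theorem ae_ne : ∀ᵐ x : Fin n → ℝ, ∀ i, x i ≠ 0 := by
  rw [ae_all_iff]
  intro i
  rw [ae_iff]
  refine measure_mono_null ?_ (Pool.Agent.R364.OP.null_const (n := n) i 0)
  intro x hx
  simpa using hx

open Classical in
theorem int_dec (hR : ∀ a b, R a b → R (ng b) (ng a)) {G : (Fin n → ℝ) → ℝ} (hG : Continuous G) :
    ∫ x in SPp R, G x =
      ∑ ε ∈ Finset.univ.filter (fun ε => Co R ε), ∫ y in OPp (Rp R ε), G (fp ε y) := by
  set H : (Fin n → ℝ) → ℝ := (SPp R).indicator G with hH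
  set P : Set (Fin n → ℝ) := {y | ∀ i, 0 ≤ y i} with hP
  have hPm : MeasurableSet P := by
    have : IsClosed P := by
      have e : P = ⋂ i, {y : Fin n → ℝ | 0 ≤ y i} := by
        ext y; simp [hP]
      rw [e]
      exact isClosed_iInter fun i => isClosed_le continuous_const (continuous_apply i)
    exact this.measurableSet
  have hint : Integrable H := by
    rw [hH, integrable_indicator_iff (SPp_closed R).measurableSet]
    exact hG.continuousOn.integrableOn_compact (SPp_compact R)
  -- the orthants cover
  have h1 : ∀ᵐ x : Fin n → ℝ, H x = ∑ ε : Fin n → Bool, P.indicator (fun y => H (fp ε y)) (fp ε x) := by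
    filter_upwards [ae_ne (n := n)] with x hx
    rw [Finset.sum_eq_single (fun i => decide (0 < x i))]
    · rw [indicator_of_mem, fp_fp]
      intro i
      unfold fp sg
      by_cases h : 0 < x i
      · simp [h, h.le]
      · simp only [h, decide_false, Bool.false_eq_true, if_false]
        linarith
    · intro ε _ hne
      rw [indicator_of_notMem]
      intro hmem
      apply hne
      funext i
      have h2 := hmem i
      have h3 := hx i
      unfold fp sg at h2
      cases hε : ε i
      · rw [hε] at h2
        simp only [Bool.false_eq_true, if_false] at h2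
        symm
        rw [decide_eq_false_iff_not]
        linarith
      · rw [hε] at h2
        simp only [if_true, one_mul] at h2
        symm
        rw [decide_eq_true_iff]
        exact lt_of_le_of_ne h2 h3.symm
    · intro h
      exact absurd (Finset.mem_univ _) h
  have hterm : ∀ ε : Fin n → Bool, ∫ x, P.indicator (fun y => H (fp ε y)) (fp ε x) =
      if Co R ε then ∫ y in OPp (Rp R ε), G (fp ε y) else 0 := by
    intro ε
    rw [fp_int ε (P.indicator (fun y => H (fp ε y)))]
    have h2 : ∀ᵐ y : Fin n → ℝ, P.indicator (fun y => H (fp ε y)) y =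
        if Co R ε then (OPp (Rp R ε)).indicator (fun y => G (fp ε y)) y else 0 := by
      filter_upwards [ae_ne (n := n)] with y hy
      by_cases hy2 : y ∈ P
      · have hpos : ∀ i, 0 < y i := fun i => lt_of_le_of_ne (hy2 i) (hy i).symm
        rw [indicator_of_mem hy2]
        have h3 := mem_orth hR ε hpos
        by_cases hc : Co R ε
        · rw [if_pos hc]
          by_cases hm : y ∈ OPp (Rp R ε)
          · rw [indicator_of_mem hm, hH, indicator_of_mem (h3.2 ⟨hc, hm⟩)]
          · rw [indicator_of_notMem hm, hH, indicator_of_notMem (fun h => hm (h3.1 h).2)]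
        · rw [if_neg hc, hH, indicator_of_notMem (fun h => hc (h3.1 h).1)]
      · rw [indicator_of_notMem hy2]
        have hm : y ∉ OPp (Rp R ε) := fun h => hy2 fun i => (h.1 i).1
        rw [indicator_of_notMem hm]
        simp
    rw [integral_congr_ae h2]
    by_cases hc : Co R ε
    · simp only [if_pos hc]
      exact integral_indicator (Pool.Agent.R372.OP.SYM.clK _).measurableSet
    · simp only [if_neg hc]
      simp
  have hint2 : ∀ ε ∈ (Finset.univ : Finset (Fin n → Bool)),
      Integrable (fun x => P.indicator (fun y => H (fp ε y)) (fp ε x)) := by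
    intro ε _
    have h3 : Integrable (fun y => H (fp ε y)) := ((fp_mp ε).integrable_comp hint.1).2 hint
    have h4 : Integrable (P.indicator (fun y => H (fp ε y))) := h3.indicator hPm
    exact ((fp_mp ε).integrable_comp h4.1).2 h4
  calc ∫ x in SPp R, G x = ∫ x, H x := (integral_indicator (SPp_closed R).measurableSet).symm
    _ = ∫ x, ∑ ε : Fin n → Bool, P.indicator (fun y => H (fp ε y)) (fp ε x) := integral_congr_ae h1
    _ = ∑ ε : Fin n → Bool, ∫ x, P.indicator (fun y => H (fp ε y)) (fp ε x) :=
        integral_finsetSum _ hint2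
    _ = ∑ ε : Fin n → Bool, if Co R ε then ∫ y in OPp (Rp R ε), G (fp ε y) else 0 :=
        Finset.sum_congr rfl fun ε _ => hterm ε
    _ = _ := by rw [Finset.sum_filter]

end Pool.Agent.L0h99.SO
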