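import Pool.Agent.L0h99.SO.Pt
import Pool.Agent.R560.OP.OpCon
import Pool.Agent.R972.OP.La

/-!
# Signed order polytopes: the lattice inequality
-/

set_option autoImplicit false
set_option linter.unusedSectionVars false
set_option linter.unusedVariables false

namespace Pool.Agent.L0h99.SO

open Finset
open Pool.Agent.R972.OP (WC S_LA)

variable {L : Type} [Fintype L] [DecidableEq L] {K : ℕ} {ν : L → L} {R : L → L → Prop}

theorem dl_neg (hK : K % 2 = 1) {W : ℕ → ℝ} (hW : ∀ x, x ≤ K → W x + W (K - x) = 0) {e x : ℕ}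
    (he : e + 1 ≤ K) (hx : x ≤ K) : dl K W e (K - x) = - dl K W e x := by
  unfold dl
  rw [rf_neg hK (Nat.lt_succ_self e) he hx]
  have e1 := hW x hx
  have e2 := hW _ (rf_le (K := K) (i := e) (j := e + 1) (by omega) he hx)
  linarith

theorem sum_dl_lt {N : ℕ} (hK : K + 1 = 2 * N) {W : ℕ → ℝ}
    (hW : ∀ x, x ≤ K → W x + W (K - x) = 0) {x : ℕ} (hx : x < N) :
    ∑ e ∈ range N, dl K W e x = (W (x + 1) - W x) - (if 0 < x then W x - W (x - 1) else 0) := by
  have hKo : K % 2 = 1 := by omega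
  have h1 : ∀ e ∈ range N, dl K W e x = (if e = x then W (x + 1) - W x else 0) -
      (if e + 1 = x then W x - W (x - 1) else 0) := by
    intro e he
    rw [mem_range] at he
    by_cases h2 : e = x
    · rw [dl_lo hKo hW (by omega) (Or.inl h2.symm), if_pos h2, if_neg (by omega), h2, sub_zero]
    · by_cases h3 : e + 1 = x
      · rw [dl_up hKo hW (by omega) (Or.inl h3.symm), if_neg h2, if_pos h3]
        subst h3
        rw [Nat.add_sub_cancel]
        ring
      · rw [dl_o (by unfold Lo; omega) (by unfold Up; omega), if_neg h2, if_neg h3, sub_self]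
  rw [sum_congr rfl h1, sum_sub_distrib, sum_ite_eq', if_pos (mem_range.2 hx)]
  congr 1
  rcases Nat.eq_zero_or_pos x with rfl | h0
  · simp
  · obtain ⟨y, rfl⟩ : ∃ y, x = y + 1 := ⟨x - 1, by omega⟩
    simp only [Nat.add_right_cancel_iff]
    rw [sum_ite_eq', if_pos (mem_range.2 (by omega)), if_pos h0]

theorem sum_dl {N : ℕ} (hK : K + 1 = 2 * N) {W : ℕ → ℝ}
    (hW : ∀ x, x ≤ K → W x + W (K - x) = 0) {x : ℕ} (hx : x ≤ K) :
    ∑ e ∈ range N, dl K W e x = (if x + 1 < K + 1 then W (x + 1) - W x else 0) -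
      (if 0 < x then W x - W (x - 1) else 0) := by
  have hKo : K % 2 = 1 := by omega
  by_cases h : x < N
  · rw [sum_dl_lt hK hW h, if_pos (show x + 1 < K + 1 by omega)]
  · have h1 : ∑ e ∈ range N, dl K W e x = - ∑ e ∈ range N, dl K W e (K - x) := by
      rw [← sum_neg_distrib]
      refine sum_congr rfl fun e he => ?_
      rw [mem_range] at he
      rw [dl_neg hKo hW (by omega) hx, neg_neg]
    rw [h1, sum_dl_lt hK hW (by omega : K - x < N), if_pos (show 0 < x by omega)]
    have e1 := hW x hx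
    have e2 := hW (x - 1) (by omega)
    rw [show K - (x - 1) = K - x + 1 by omega] at e2
    by_cases h2 : x + 1 < K + 1
    · have e3 := hW (x + 1) (by omega)
      rw [show K - (x + 1) = K - x - 1 by omega] at e3
      rw [if_pos h2, if_pos (show 0 < K - x by omega)]
      linarith
    · rw [if_neg h2, if_neg (show ¬ 0 < K - x by omega)]
      linarith

open Classical in
/-- generator -/
noncomputable def LB (K : ℕ) (ν : L → L) (R : L → L → Prop) (c : ℝ) (F : (L → ℕ) → ℝ)
    (N : ℕ) (s : L → ℕ) : ℝ := ∑ e ∈ range N, tb K ν R c F s e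

theorem conb {N : ℕ} (hK : K + 1 = 2 * N) (hR : ∀ a b, R a b → R (ν b) (ν a)) {W : ℕ → ℝ} {c m : ℝ}
    (hc : 0 ≤ c) (hWC : WC (K + 1) W (fun _ => c) m) (hW : ∀ x, x ≤ K → W x + W (K - x) = 0)
    {lam : ℝ} {F : (L → ℕ) → ℝ} (heig : ∀ g ∈ cfb K ν R, LB K ν R c F N g = -lam * F g)
    (hne : ∃ g ∈ cfb K ν R, ∃ k, k + 1 ≤ K ∧ mb K k (k + 1) g ∈ cfb K ν R ∧
      F (mb K k (k + 1) g) ≠ F g) : 1 ≤ lam := by
  classical
  have hKo : K % 2 = 1 := by omega
  have hWm : ∀ k, k + 1 ≤ K → W k < W (k + 1) := fun k hk => hWC.mono k (by omega)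
  have hWlt : ∀ i j, i < j → j ≤ K → W i < W j := fun i j hij hj =>
    Pool.Agent.R560.OP.W_lt hWC hij (by omega)
  set T : Finset ((L → ℕ) × ℕ × ℕ) := (cfb K ν R ×ˢ (range (K + 1) ×ˢ range (K + 1))).filter
    fun x => x.2.1 < x.2.2 ∧ mb K x.2.1 x.2.2 x.1 ∈ cfb K ν R with hT
  have memT : ∀ g i j, (g, i, j) ∈ T ↔ g ∈ cfb K ν R ∧ i < j ∧ j ≤ K ∧ mb K i j g ∈ cfb K ν R := by
    intro g i j
    simp only [hT, mem_filter, mem_product, mem_range]
    constructor
    · rintro ⟨⟨h1, h2, h3⟩, h4, h5⟩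
      exact ⟨h1, h4, by omega, h5⟩
    · rintro ⟨h1, h2, h3, h4⟩
      exact ⟨⟨h1, by omega, by omega⟩, h2, h4⟩
  obtain ⟨g0, hg0, k0, hk0, hm0, hF0⟩ := hne
  have h0T : (g0, k0, k0 + 1) ∈ T := (memT _ _ _).2 ⟨hg0, by omega, hk0, hm0⟩
  obtain ⟨⟨s0, i, j⟩, hsT, hmax⟩ := exists_max_image T
    (fun x => |F (mb K x.2.1 x.2.2 x.1) - F x.1| / (W x.2.2 - W x.2.1)) ⟨_, h0T⟩
  obtain ⟨hs0, hij, hj, ht0⟩ := (memT _ _ _).1 hsT
  set M : ℝ := |F (mb K i j s0) - F s0| / (W j - W i) with hM
  have hWij : 0 < W j - W i := sub_pos.2 (hWlt i j hij hj)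
  have hMpos : 0 < M := by
    have h1 := hmax _ h0T
    have h2 : 0 < |F (mb K k0 (k0 + 1) g0) - F g0| / (W (k0 + 1) - W k0) :=
      div_pos (abs_pos.2 (sub_ne_zero.2 hF0)) (sub_pos.2 (hWm _ hk0))
    exact lt_of_lt_of_le h2 h1
  have hLip : ∀ g ∈ cfb K ν R, ∀ i j, i < j → j ≤ K → mb K i j g ∈ cfb K ν R →
      |F (mb K i j g) - F g| ≤ M * (W j - W i) := by
    intro g hg i' j' hij' hj' hm'
    have h1 := hmax _ ((memT g i' j').2 ⟨hg, hij', hj', hm'⟩)
    have hpos : 0 < W j' - W i' := sub_pos.2 (hWlt i' j' hij' hj')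
    exact (div_le_iff₀ hpos).1 h1
  have hD0 : |F (mb K i j s0) - F s0| = M * (W j - W i) := by
    rw [hM, div_mul_cancel₀ _ hWij.ne']
  obtain ⟨s, hs, ht, hD⟩ : ∃ s ∈ cfb K ν R, mb K i j s ∈ cfb K ν R ∧
      F (mb K i j s) - F s = M * (W j - W i) := by
    have hb := mb_mb hKo hij hj (mem_cfb.1 hs0).1
    rcases le_total 0 (F (mb K i j s0) - F s0) with hc | hc
    · exact ⟨s0, hs0, ht0, by rw [← hD0, abs_of_nonneg hc]⟩
    · refine ⟨mb K i j s0, ht0, by rwa [hb], ?_⟩
      rw [hb, ← hD0, abs_of_nonpos hc]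
      ring
  have hsum : LB K ν R c F N (mb K i j s) - LB K ν R c F N s ≤
      M * (c * (∑ e ∈ range N, dl K W e j - ∑ e ∈ range N, dl K W e i)) := by
    unfold LB
    rw [← sum_sub_distrib, ← sum_sub_distrib, mul_sum, mul_sum]
    refine sum_le_sum fun e he => ?_
    have he' := mem_range.1 he
    exact ptb hKo hR hWm hW hc hMpos.le hLip hs hij hj ht hD (by omega)
  have hi : i ≤ K := by omega
  rw [sum_dl hK hW hj, sum_dl hK hW hi, heig _ ht, heig _ hs] at hsum
  have ej := hWC.eq j (by omega)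
  have ei := hWC.eq i (by omega)
  have hj' : c * ((if j + 1 < K + 1 then W (j + 1) - W j else 0) -
      (if 0 < j then W j - W (j - 1) else 0)) = m - W j := by
    rw [← ej]
    split_ifs <;> ring
  have hi' : c * ((if i + 1 < K + 1 then W (i + 1) - W i else 0) -
      (if 0 < i then W i - W (i - 1) else 0)) = m - W i := by
    rw [← ei]
    split_ifs <;> ring
  rw [mul_sub, hj', hi'] at hsum
  have hDpos : 0 < M * (W j - W i) := mul_pos hMpos hWij
  have h3 : -lam * (M * (W j - W i)) ≤ -1 * (M * (W j - W i)) := by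
    rw [← hD]
    rw [← hD] at hDpos
    have h4 : M * (m - W j - (m - W i)) = -(F (mb K i j s) - F s) := by rw [hD]; ring
    rw [h4] at hsum
    linarith
  nlinarith [le_of_mul_le_mul_right h3 hDpos]

/-- one step towards another placement -/
theorem stepb {N : ℕ} (hK : K + 1 = 2 * N) (hR : ∀ a b, R a b → R (ν b) (ν a)) {g h : L → ℕ}
    (hg : g ∈ cfb K ν R) (hh : h ∈ cfb K ν R) (hne : g ≠ h) :
    ∃ k, k < N ∧ mb K k (k + 1) g ∈ cfb K ν R ∧
      ∑ a, ((mb K k (k + 1) g a : ℤ) - h a) ^ 2 < ∑ a, ((g a : ℤ) - h a) ^ 2 := by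
  classical
  have hKo : K % 2 = 1 := by omega
  obtain ⟨g1, g2, g3, g4⟩ := mem_cfb.1 hg
  obtain ⟨h1, h2, h3, h4⟩ := mem_cfb.1 hh
  have hex : ∃ a, g a < h a := by
    by_contra hcon
    push Not at hcon
    apply hne
    funext a
    have e1 := hcon a
    have e2 := hcon (ν a)
    have e3 := g3 a
    have e4 := h3 a
    omega
  obtain ⟨a, ha, hmax⟩ := Finset.exists_max_image (Finset.univ.filter (fun a => g a < h a)) g
    (by
      obtain ⟨a, ha⟩ := hex
      exact ⟨a, Finset.mem_filter.2 ⟨Finset.mem_univ _, ha⟩⟩)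
  rw [Finset.mem_filter] at ha
  have ha2 := ha.2
  have hk : g a + 1 ≤ K := by
    have := h1 a
    omega
  have hal : Al R g (g a) := by
    rintro c b hab ⟨e1, hb⟩
    have e1' : c = a := g2 e1
    subst e1'
    have hbU : h b ≤ g b := by
      by_contra hcon
      push Not at hcon
      have := hmax b (Finset.mem_filter.2 ⟨Finset.mem_univ _, hcon⟩)
      omega
    have := h4 c b hab
    omega
  have hmem := (mb_mem_iff hKo hR hg hk).2 hal
  -- the inequality for the move at `g a`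
  have hlt : ∑ c, ((mb K (g a) (g a + 1) g c : ℤ) - h c) ^ 2 < ∑ c, ((g c : ℤ) - h c) ^ 2 := by
    have hνa := g3 a
    have hνa' := h3 a
    have hνν : ∀ c, ν (ν c) = c := nu_nu hg
    set σ : ℕ → ℕ := rf K (g a) (g a + 1) with hσ
    have ea : σ (g a) = g a + 1 := rf_i _ _ _
    have eνa : σ (g (ν a)) = g (ν a) - 1 := by
      have := rf_neg hKo (Nat.lt_succ_self (g a)) hk (g1 a)
      rw [show g (ν a) = K - g a by omega]
      rw [hσ, this, rf_i]
      omega
    have ha3 : (g a : ℤ) + 1 ≤ h a := by exact_mod_cast ha2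
    have i1 : (g a : ℤ) + g (ν a) = K := by exact_mod_cast hνa
    have i2 : (h a : ℤ) + h (ν a) = K := by exact_mod_cast hνa'
    have i3 : ((g (ν a) - 1 : ℕ) : ℤ) = g (ν a) - 1 := by
      have : 1 ≤ g (ν a) := by omega
      push_cast [this]
      ring
    by_cases hb : ∃ b, g b = g a + 1 ∧ b ≠ ν a
    · obtain ⟨b, hb, hbν⟩ := hb
      have hba : b ≠ a := by rintro rfl; omega
      have hab' : ν a ≠ a := by
        intro h; have := g3 a; rw [h] at this; omega
      have hνb := g3 b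
      have hνb' := h3 b
      have hbb' : ν b ≠ b := by
        intro h; have := g3 b; rw [h] at this; omega
      have hνab : ν a ≠ ν b := fun h => hba (by rw [← hνν b, ← h, hνν])
      have haνb : a ≠ ν b := fun h => hbν (by rw [h, hνν])
      have eb : σ (g b) = g a := by
        rw [hb]; exact rf_j _ (by omega) rfl
      have eνb : σ (g (ν b)) = g (ν b) + 1 := by
        have := rf_neg hKo (Nat.lt_succ_self (g a)) hk (g1 b)
        rw [show g (ν b) = K - g b by omega]
        rw [hσ, this, ← hσ, eb]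
        omega
      have hbU : h b ≤ g b := by
        by_contra hcon
        push Not at hcon
        have := hmax b (Finset.mem_filter.2 ⟨Finset.mem_univ _, hcon⟩)
        omega
      have hltb : h b < h a := by
        have : h b ≠ h a := fun h' => hba (h2 h')
        omega
      set D : L → ℤ := fun c => ((g c : ℤ) - h c) ^ 2 - ((σ (g c) : ℤ) - h c) ^ 2 with hD
      set τ : Equiv.Perm L := Equiv.swap a b * Equiv.swap (ν a) (ν b) with hτ
      have hsum : ∑ c, D c = ∑ c, D (τ c) := (Equiv.sum_comp τ D).symm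
      have t1 : τ a = b := by
        rw [hτ, Equiv.Perm.mul_apply, Equiv.swap_apply_of_ne_of_ne hab'.symm haνb,
          Equiv.swap_apply_left]
      have t2 : τ b = a := by
        rw [hτ, Equiv.Perm.mul_apply, Equiv.swap_apply_of_ne_of_ne hbν hbb'.symm,
          Equiv.swap_apply_right]
      have t3 : τ (ν a) = ν b := by
        rw [hτ, Equiv.Perm.mul_apply, Equiv.swap_apply_left,
          Equiv.swap_apply_of_ne_of_ne haνb.symm hbb']
      have t4 : τ (ν b) = ν a := by
        rw [hτ, Equiv.Perm.mul_apply, Equiv.swap_apply_right,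
          Equiv.swap_apply_of_ne_of_ne hab' hbν.symm]
      have hgb : (g b : ℤ) = g a + 1 := by exact_mod_cast hb
      have j1 : (g b : ℤ) + g (ν b) = K := by exact_mod_cast hνb
      have j2 : (h b : ℤ) + h (ν b) = K := by exact_mod_cast hνb'
      have hlt' : (h b : ℤ) + 1 ≤ h a := by exact_mod_cast hltb
      have d1 : D a + D b = 2 * ((h a : ℤ) - h b) := by
        simp only [hD]
        rw [ea, eb, hgb]
        push_cast
        ring
      have d2 : D (ν a) + D (ν b) = 2 * ((h a : ℤ) - h b) := by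
        simp only [hD]
        rw [eνa, eνb, i3]
        push_cast
        have k1 : (g (ν a) : ℤ) = K - g a := by linarith
        have k2 : (h (ν a) : ℤ) = K - h a := by linarith
        have k3 : (g (ν b) : ℤ) = K - g a - 1 := by linarith
        have k4 : (h (ν b) : ℤ) = K - h b := by linarith
        rw [k1, k2, k3, k4]
        ring
      have hpos : ∀ c, 0 ≤ D c + D (τ c) := by
        intro c
        by_cases c1 : c = a
        · rw [c1, t1, d1]; linarith
        by_cases c2 : c = b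
        · rw [c2, t2, add_comm, d1]; linarith
        by_cases c3 : c = ν a
        · rw [c3, t3, d2]; linarith
        by_cases c4 : c = ν b
        · rw [c4, t4, add_comm, d2]; linarith
        have t5 : τ c = c := by
          rw [hτ, Equiv.Perm.mul_apply, Equiv.swap_apply_of_ne_of_ne c3 c4,
            Equiv.swap_apply_of_ne_of_ne c1 c2]
        have t6 : σ (g c) = g c := by
          refine rf_o ?_ ?_ ?_ ?_
          · exact fun h => c1 (g2 h)
          · exact fun h => c2 (g2 (h.trans hb.symm))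
          · intro h
            exact c3 (g2 (by omega))
          · intro h
            exact c4 (g2 (by omega))
        rw [t5]
        simp only [hD]
        rw [t6]
        simp
      have h5 : 0 < ∑ c, (D c + D (τ c)) :=
        Finset.sum_pos' (fun c _ => hpos c) ⟨a, Finset.mem_univ _, by rw [t1, d1]; linarith⟩
      rw [Finset.sum_add_distrib, ← hsum] at h5
      have h6 : ∑ c, D c = ∑ c, ((g c : ℤ) - h c) ^ 2 - ∑ c, ((σ (g c) : ℤ) - h c) ^ 2 := by
        rw [← Finset.sum_sub_distrib]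
      have h7 : ∑ c, ((mb K (g a) (g a + 1) g c : ℤ) - h c) ^ 2 =
          ∑ c, ((σ (g c) : ℤ) - h c) ^ 2 := rfl
      rw [h7]
      linarith
    · push Not at hb
      have hle : ∀ c, ((mb K (g a) (g a + 1) g c : ℤ) - h c) ^ 2 ≤ ((g c : ℤ) - h c) ^ 2 := by
        intro c
        show ((σ (g c) : ℤ) - h c) ^ 2 ≤ ((g c : ℤ) - h c) ^ 2
        by_cases c1 : c = a
        · rw [c1, ea]
          push_cast
          nlinarith
        by_cases c2 : c = ν a
        · rw [c2, eνa, i3]
          have k1 : (g (ν a) : ℤ) = K - g a := by linarith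
          have k2 : (h (ν a) : ℤ) = K - h a := by linarith
          rw [k1, k2]
          nlinarith
        have t6 : σ (g c) = g c := by
          refine rf_o ?_ ?_ ?_ ?_
          · exact fun h => c1 (g2 h)
          · intro h
            exact c2 (hb c h)
          · intro h
            exact c2 (g2 (by omega))
          · intro h
            have e5 := g3 c
            have e6 := hb (ν c) (by omega)
            exact c1 (by rw [← hνν c, e6, hνν])
        rw [t6]
      apply Finset.sum_lt_sum (fun c _ => hle c)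
      refine ⟨a, Finset.mem_univ _, ?_⟩
      show ((σ (g a) : ℤ) - h a) ^ 2 < ((g a : ℤ) - h a) ^ 2
      rw [ea]
      push_cast
      nlinarith
  by_cases hN : g a < N
  · exact ⟨g a, hN, hmem, hlt⟩
  · have hmir := mb_mirror hKo (Nat.lt_succ_self (g a)) hk g1
    have e7 : K - g a = K - (g a + 1) + 1 := by omega
    rw [e7] at hmir
    refine ⟨K - (g a + 1), by omega, ?_, ?_⟩
    · rw [hmir]; exact hmem
    · rw [hmir]; exact hlt

theorem connb {N : ℕ} (hK : K + 1 = 2 * N) (hR : ∀ a b, R a b → R (ν b) (ν a)) {F : (L → ℕ) → ℝ}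
    (hF : ∀ g ∈ cfb K ν R, ∀ k, k < N → mb K k (k + 1) g ∈ cfb K ν R →
      F (mb K k (k + 1) g) = F g) : ∀ g ∈ cfb K ν R, ∀ h ∈ cfb K ν R, F g = F h := by
  have key : ∀ m : ℕ, ∀ g ∈ cfb K ν R, ∀ h ∈ cfb K ν R,
      ∑ a, ((g a : ℤ) - h a) ^ 2 ≤ (m : ℤ) → F g = F h := by
    intro m
    induction m with
    | zero =>
      intro g _ h _ hm
      have h0 : ∀ a ∈ Finset.univ, (0 : ℤ) ≤ ((g a : ℤ) - h a) ^ 2 := fun a _ => sq_nonneg _
      have h1 : ∑ a, ((g a : ℤ) - h a) ^ 2 = 0 :=
        le_antisymm (by simpa using hm) (Finset.sum_nonneg h0)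
      rw [Finset.sum_eq_zero_iff_of_nonneg h0] at h1
      have h2 : g = h := by
        funext a
        have h3 := h1 a (Finset.mem_univ a)
        rw [sq_eq_zero_iff, sub_eq_zero] at h3
        exact_mod_cast h3
      rw [h2]
    | succ m ih =>
      intro g hg h hh hm
      by_cases hne : g = h
      · rw [hne]
      · obtain ⟨k, hk, hmem, hlt⟩ := stepb hK hR hg hh hne
        rw [← hF g hg k hk hmem]
        apply ih _ hmem h hh
        push_cast at hm
        linarith
  intro g hg h hh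
  have h0 : (0 : ℤ) ≤ ∑ a, ((g a : ℤ) - h a) ^ 2 := Finset.sum_nonneg fun a _ => sq_nonneg _
  obtain ⟨m, hm⟩ := Int.eq_ofNat_of_zero_le h0
  exact key m g hg h hh (le_of_eq hm)

open Classical in
/-- the weights -/
noncomputable def wb (K : ℕ) (ν : L → L) (R : L → L → Prop) (c : ℝ) (N : ℕ)
    (x y : {g // g ∈ cfb K ν R}) : ℝ :=
  ∑ k ∈ Finset.range N, if mb K k (k + 1) x.1 = y.1 then c else 0

theorem wb_symm {N : ℕ} (hK : K + 1 = 2 * N) (c : ℝ) (x y : {g // g ∈ cfb K ν R}) :
    wb K ν R c N x y = wb K ν R c N y x := by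
  unfold wb
  refine Finset.sum_congr rfl fun k hk => ?_
  have hk' := mem_range.1 hk
  have hKo : K % 2 = 1 := by omega
  have e1 := mb_mb hKo (Nat.lt_succ_self k) (by omega) (mem_cfb.1 x.2).1
  have e2 := mb_mb hKo (Nat.lt_succ_self k) (by omega) (mem_cfb.1 y.2).1
  have : mb K k (k + 1) x.1 = y.1 ↔ mb K k (k + 1) y.1 = x.1 := by
    constructor
    · intro h; rw [← h, e1]
    · intro h; rw [← h, e2]
  simp only [this]

open Classical in
theorem sum_wb (c : ℝ) (N : ℕ) (x : {g // g ∈ cfb K ν R}) (φ : (L → ℕ) → ℝ) :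
    ∑ y : {g // g ∈ cfb K ν R}, wb K ν R c N x y * φ y.1 =
      ∑ k ∈ Finset.range N,
        if mb K k (k + 1) x.1 ∈ cfb K ν R then c * φ (mb K k (k + 1) x.1) else 0 := by
  unfold wb
  simp_rw [Finset.sum_mul]
  rw [Finset.sum_comm]
  refine Finset.sum_congr rfl fun k _ => ?_
  split_ifs with h
  · rw [Finset.sum_eq_single ⟨mb K k (k + 1) x.1, h⟩]
    · simp
    · intro y _ hy
      rw [if_neg, zero_mul]
      intro he
      exact hy (Subtype.ext he.symm)
    · intro hn
      exact absurd (Finset.mem_univ _) hn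
  · apply Finset.sum_eq_zero
    intro y _
    rw [if_neg, zero_mul]
    intro he
    rw [he] at h
    exact h y.2

open Classical in
/-- the lattice inequality -/
theorem latb {N : ℕ} (hK : K + 1 = 2 * N) (hR : ∀ a b, R a b → R (ν b) (ν a)) {W : ℕ → ℝ} {c m : ℝ}
    (hc : 0 ≤ c) (hWC : WC (K + 1) W (fun _ => c) m) (hW : ∀ x, x ≤ K → W x + W (K - x) = 0)
    (F : (L → ℕ) → ℝ) : ((cfb K ν R).card : ℝ) * ∑ g ∈ cfb K ν R, F g ^ 2 -
    (∑ g ∈ cfb K ν R, F g) ^ 2 ≤ (cfb K ν R).card * (1 / 2 * ∑ g ∈ cfb K ν R, QB K ν R c F N g) := by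
  have h3 : S_LA := Pool.Agent.R972.OP.la
  have key := h3 {g // g ∈ cfb K ν R} (wb K ν R c N) (wb_symm hK c) ?_ (fun x => F x.1)
  · rw [Fintype.card_coe] at key
    have e1 : ∑ x : {g // g ∈ cfb K ν R}, F x.1 ^ 2 = ∑ g ∈ cfb K ν R, F g ^ 2 :=
      Finset.sum_coe_sort (cfb K ν R) (fun g => F g ^ 2)
    have e2 : ∑ x : {g // g ∈ cfb K ν R}, F x.1 = ∑ g ∈ cfb K ν R, F g :=
      Finset.sum_coe_sort (cfb K ν R) F
    have e3 : ∑ x : {g // g ∈ cfb K ν R}, ∑ y : {g // g ∈ cfb K ν R},
        wb K ν R c N x y * (F y.1 - F x.1) ^ 2 = ∑ g ∈ cfb K ν R, QB K ν R c F N g := by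
      rw [← Finset.sum_coe_sort (cfb K ν R) (fun g => QB K ν R c F N g)]
      refine Finset.sum_congr rfl fun x _ => ?_
      rw [sum_wb c N x (fun g => (F g - F x.1) ^ 2)]
      rfl
    rw [e1, e2, e3] at key
    exact key
  · intro lam G hG hne
    set G' : (L → ℕ) → ℝ := fun g => if h : g ∈ cfb K ν R then G ⟨g, h⟩ else 0 with hG'
    have hGG : ∀ x : {g // g ∈ cfb K ν R}, G' x.1 = G x := by
      intro x
      rw [hG']
      simp
    apply conb hK hR hc hWC hW (F := G')
    · intro g hg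
      have e4 := hG ⟨g, hg⟩
      have e5 : ∑ y : {g // g ∈ cfb K ν R}, wb K ν R c N ⟨g, hg⟩ y * (G y - G ⟨g, hg⟩) =
          ∑ y : {g // g ∈ cfb K ν R}, wb K ν R c N ⟨g, hg⟩ y * (G' y.1 - G' g) := by
        refine Finset.sum_congr rfl fun y _ => ?_
        rw [hGG y, hGG ⟨g, hg⟩]
      rw [e5, sum_wb c N ⟨g, hg⟩ (fun h => G' h - G' g), ← hGG ⟨g, hg⟩] at e4
      exact e4
    · by_contra hcon
      push Not at hcon
      obtain ⟨x, y, hxy⟩ := hne
      apply hxy
      rw [← hGG x, ← hGG y]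
      exact connb hK hR (fun g hg k hk hmem => hcon g hg k (by omega) hmem) x.1 x.2 y.1 y.2

end Pool.Agent.L0h99.SO
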