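import Pool.Agent.L0h99.SO.Int
import Pool.Agent.R372.OP.ADJ
import Pool.Agent.R972.OP.UPC
import Pool.Agent.R874.OP.Upb
import Pool.Agent.R515.OP.WCB

/-!
# Signed order polytopes: the Poincare inequality
-/

set_option autoImplicit false
set_option linter.unusedSectionVars false
set_option linter.unusedVariables false

namespace Pool.Agent.L0h99.SO

open MeasureTheory Set Filter Topology
open Pool.Agent.R972.OP (OPp cfg mv QQ adj pd cb WC)

variable {n : ℕ} {R : Sl n → Sl n → Prop}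

/-- the weight function -/
noncomputable def Wc (N k : ℕ) : ℝ := -Real.cos (Real.pi * ((k : ℝ) + 1 / 2) / (2 * N : ℕ))

theorem Wc_WC {N : ℕ} (hN : 0 < N) : WC (2 * N) (Wc N) (fun _ => cb (2 * N)) 0 := by
  have := Pool.Agent.R515.OP.wcb.1 (2 * N) (by omega)
  exact this

theorem Wc_sym {N K : ℕ} (hN : 0 < N) (hK : K + 1 = 2 * N) {x : ℕ} (hx : x ≤ K) :
    Wc N x + Wc N (K - x) = 0 := by
  unfold Wc
  have h1 : ((K - x : ℕ) : ℝ) = (2 * N : ℕ) - 1 - x := by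
    rw [← hK]
    push_cast [hx]
    ring
  have hN' : ((2 * N : ℕ) : ℝ) ≠ 0 := by
    have : (0 : ℝ) < (2 * N : ℕ) := by exact_mod_cast (by omega : 0 < 2 * N)
    exact this.ne'
  have h2 : Real.pi * (((K - x : ℕ) : ℝ) + 1 / 2) / (2 * N : ℕ) =
      Real.pi - Real.pi * ((x : ℝ) + 1 / 2) / (2 * N : ℕ) := by
    rw [h1]
    field_simp
    ring
  rw [h2, Real.cos_pi_sub]
  ring

theorem cb_two {N : ℕ} (hN : 0 < N) : cb (2 * N) ≤ 4 * cb N := by
  have hN' : (0 : ℝ) < N := by exact_mod_cast hN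
  have hpi := Real.pi_pos
  set θ : ℝ := Real.pi / (2 * ((2 * N : ℕ) : ℝ)) with hθ
  have h2 : Real.pi / (2 * (N : ℝ)) = 2 * θ := by
    rw [hθ]; push_cast; field_simp
  have hθ0 : 0 < θ := by rw [hθ]; positivity
  have hN1 : (1 : ℝ) ≤ N := by exact_mod_cast hN
  have hθ1 : 2 * θ < Real.pi := by
    rw [← h2, div_lt_iff₀ (by positivity)]
    nlinarith
  have hs : 0 < Real.sin θ := Real.sin_pos_of_pos_of_lt_pi hθ0 (by linarith)
  have hs2 : 0 < Real.sin (2 * θ) := Real.sin_pos_of_pos_of_lt_pi (by linarith) hθ1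
  have hle : Real.sin (2 * θ) ^ 2 ≤ 4 * Real.sin θ ^ 2 := by
    rw [Real.sin_two_mul]
    have h3 := Real.cos_sq_le_one θ
    have h4 : 0 ≤ Real.sin θ ^ 2 := sq_nonneg _
    nlinarith
  unfold cb
  rw [← hθ, h2]
  have e : 4 * (1 / (4 * Real.sin (2 * θ) ^ 2)) = 1 / Real.sin (2 * θ) ^ 2 := by
    field_simp
  rw [e]
  exact one_div_le_one_div_of_le (by positivity) hle

theorem pd_fp {f : (Fin n → ℝ) → ℝ} (hf : ContDiff ℝ 1 f) (ε : Fin n → Bool) (a : Fin n)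
    (y : Fin n → ℝ) : pd (fun y => f (fp ε y)) a y ^ 2 = pd f a (fp ε y) ^ 2 := by
  have hl : HasFDerivAt (fp ε)
      (ContinuousLinearMap.pi fun i => sg (ε i) • ContinuousLinearMap.proj (R := ℝ)
        (φ := fun _ : Fin n => ℝ) i) y :=
    (ContinuousLinearMap.pi fun i => sg (ε i) • ContinuousLinearMap.proj (R := ℝ)
        (φ := fun _ : Fin n => ℝ) i).hasFDerivAt
  have hd : HasFDerivAt f (fderiv ℝ f (fp ε y)) (fp ε y) :=
    (hf.differentiable one_ne_zero _).hasFDerivAt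
  have hc := hd.comp y hl
  have e1 : fderiv ℝ (fun y => f (fp ε y)) y = (fderiv ℝ f (fp ε y)).comp
      (ContinuousLinearMap.pi fun i => sg (ε i) • ContinuousLinearMap.proj (R := ℝ)
        (φ := fun _ : Fin n => ℝ) i) := hc.fderiv
  unfold pd
  rw [e1, ContinuousLinearMap.comp_apply]
  have e2 : (ContinuousLinearMap.pi fun i => sg (ε i) • ContinuousLinearMap.proj (R := ℝ)
        (φ := fun _ : Fin n => ℝ) i) (Pi.single a (1 : ℝ)) = sg (ε a) • Pi.single a (1 : ℝ) := by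
    funext i
    by_cases h : i = a
    · subst h; simp
    · simp [h]
  rw [e2, map_smul, smul_eq_mul, mul_pow, sq (sg (ε a)), sg_sq, one_mul]

open Classical in
theorem QQ_four {N : ℕ} (hN : 0 < N) (r : Fin n → Fin n → Prop) (F : (Fin n → ℕ) → ℝ)
    (g : Fin n → ℕ) : QQ N r (fun _ => cb (2 * N)) F g ≤ 4 * QQ N r (fun _ => cb N) F g := by
  unfold QQ
  rw [Finset.mul_sum]
  refine Finset.sum_le_sum fun k _ => ?_
  split_ifs
  · have := mul_le_mul_of_nonneg_right (cb_two hN) (sq_nonneg (F (mv k (k + 1) g) - F g))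
    linarith
  · simp

open Classical in
theorem poib (hR : ∀ a b, R a b → R (ng b) (ng a)) (hirr : ∀ a, ¬ R a a)
    {f : (Fin n → ℝ) → ℝ} (hf : ContDiff ℝ 1 f) :
    (volume (SPp R)).toReal * (∫ x in SPp R, f x ^ 2) - (∫ x in SPp R, f x) ^ 2 ≤
      (volume (SPp R)).toReal * (4 / Real.pi ^ 2 * ∫ x in SPp R, ∑ a, pd f a x ^ 2) := by
  have hfe : ∀ ε : Fin n → Bool, ContDiff ℝ 1 (fun y => f (fp ε y)) := by
    intro ε
    apply hf.comp
    unfold fp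
    fun_prop
  choose err C herr hC hbd using fun ε : Fin n → Bool =>
    Pool.Agent.R874.OP.upb n (fun y => f (fp ε y)) (hfe ε)
  have hcf : Continuous f := hf.continuous
  have hcpd : ∀ a, Continuous (pd f a) := by
    intro a
    unfold pd
    exact (hf.continuous_fderiv (by norm_num)).clm_apply continuous_const
  have hcG : Continuous (fun x => ∑ a, pd f a x ^ 2) :=
    continuous_finsetSum _ fun a _ => (hcpd a).pow 2
  have hirr' : ∀ ε : Fin n → Bool, ∀ a, ¬ Rp R ε a a := fun ε a h => hirr _ h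
  -- Riemann sums
  set Z := Finset.univ.filter (fun ε : Fin n → Bool => Co R ε) with hZ
  have rsb : ∀ G : (Fin n → ℝ) → ℝ, Continuous G → Tendsto (fun N : ℕ =>
      ∑ ε ∈ Z, (∑ g ∈ cfg N (Rp R ε), G (fp ε (Pool.Agent.R972.OP.lp N g))) / (N : ℝ) ^ n) atTop
      (𝓝 (∫ x in SPp R, G x)) := by
    intro G hG
    rw [int_dec hR hG]
    refine tendsto_finsetSum _ fun ε _ => ?_
    exact Pool.Agent.R364.OP.rs n (Rp R ε) (hirr' ε) (fun y => G (fp ε y)) (hG.comp (fp_cont ε))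
  have t1 := rsb (fun _ => (1 : ℝ)) continuous_const
  have tf := rsb f hcf
  have tf2 := rsb (fun x => f x ^ 2) (hcf.pow 2)
  have tG := rsb (fun x => ∑ a, pd f a x ^ 2) hcG
  have hvol : (∫ _x in SPp R, (1 : ℝ)) = (volume (SPp R)).toReal := by
    rw [setIntegral_const]
    simp [Measure.real]
  rw [hvol] at t1
  have tE : Tendsto (fun N : ℕ => ∑ ε ∈ Z, (err ε N *
      ((∑ g ∈ cfg N (Rp R ε), (1 : ℝ)) / (N : ℝ) ^ n) +
      C ε * ((∑ g ∈ cfg N (Rp R ε), (adj g : ℝ)) / (N : ℝ) ^ n))) atTop (𝓝 0) := by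
    have : (0 : ℝ) = ∑ ε ∈ Z, (0 * (∫ x in OPp (Rp R ε), (1 : ℝ)) + C ε * 0) := by simp
    rw [this]
    refine tendsto_finsetSum _ fun ε _ => ?_
    exact ((herr ε).mul (Pool.Agent.R364.OP.rs n (Rp R ε) (hirr' ε) (fun _ => (1 : ℝ))
      continuous_const)).add ((Pool.Agent.R372.OP.ADJ.main n (Rp R ε)).const_mul (C ε))
  -- the limits of both sides
  have tL := (t1.mul tf2).sub (tf.pow 2)
  have tR := t1.mul ((((tG.const_mul (2 / Real.pi ^ 2)).add tE).const_mul 4).const_mul (1 / 2 : ℝ))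
  have hlim : (volume (SPp R)).toReal * (1 / 2 * (4 * (2 / Real.pi ^ 2 *
      (∫ x in SPp R, ∑ a, pd f a x ^ 2) + 0))) =
      (volume (SPp R)).toReal * (4 / Real.pi ^ 2 * ∫ x in SPp R, ∑ a, pd f a x ^ 2) := by ring
  rw [hlim] at tR
  refine le_of_tendsto_of_tendsto tL tR ?_
  filter_upwards [eventually_gt_atTop 0] with N hN
  have hN0 : (0 : ℝ) < N := by exact_mod_cast hN
  have hNn : (0 : ℝ) < (N : ℝ) ^ n := by positivity
  obtain ⟨K, hK⟩ : ∃ K, K + 1 = 2 * N := ⟨2 * N - 1, by omega⟩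
  have hc : 0 ≤ cb (2 * N) := Pool.Agent.R874.OP.cb_nonneg _
  have wc := Wc_WC hN
  rw [← hK] at wc
  have hlat := latb (L := Sl n) (ν := ng) (R := R) hK hR (c := cb (K + 1)) (by rw [hK]; exact hc) wc
    (fun x hx => Wc_sym hN hK hx) (fun s => f (xs N s))
  rw [hK] at hlat
  -- card as a sum
  have hcard : ((cfb K ng R).card : ℝ) = ∑ ε ∈ Z, ∑ g ∈ cfg N (Rp R ε), (1 : ℝ) := by
    have := sum_dec hK hR (fun _ => (1 : ℝ))
    rw [← this]
    simp
  have hfs : ∑ s ∈ cfb K ng R, f (xs N s) =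
      ∑ ε ∈ Z, ∑ g ∈ cfg N (Rp R ε), f (fp ε (Pool.Agent.R972.OP.lp N g)) := by
    rw [sum_dec hK hR (fun s => f (xs N s))]
    refine Finset.sum_congr rfl fun ε _ => Finset.sum_congr rfl fun g hg => ?_
    rw [xs_enc (Pool.Agent.R780.OP.mem_cfg.1 hg).1]
  have hfs2 : ∑ s ∈ cfb K ng R, f (xs N s) ^ 2 =
      ∑ ε ∈ Z, ∑ g ∈ cfg N (Rp R ε), f (fp ε (Pool.Agent.R972.OP.lp N g)) ^ 2 := by
    rw [sum_dec hK hR (fun s => f (xs N s) ^ 2)]
    refine Finset.sum_congr rfl fun ε _ => Finset.sum_congr rfl fun g hg => ?_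
    rw [xs_enc (Pool.Agent.R780.OP.mem_cfg.1 hg).1]
  have hQ : ∀ ε ∈ Z, ∀ g ∈ cfg N (Rp R ε),
      QB K ng R (cb (2 * N)) (fun s => f (xs N s)) N (enc N ε g) ≤
      4 * (2 / Real.pi ^ 2 * (∑ a, pd f a (fp ε (Pool.Agent.R972.OP.lp N g)) ^ 2) + err ε N +
        C ε * (adj g : ℝ)) := by
    intro ε hε g hg
    obtain ⟨hlt, hinj, -⟩ := Pool.Agent.R780.OP.mem_cfg.1 hg
    obtain ⟨hb1, hb2⟩ := hbd ε N g hN hlt hinj
    refine (QB_le hK hN hR (Finset.mem_filter.1 hε).2 hg hc f).trans ?_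
    refine (QQ_four hN _ _ _).trans ?_
    refine mul_le_mul_of_nonneg_left ?_ (by norm_num)
    have wc1 := Pool.Agent.R515.OP.wcb.1 N hN
    refine (Pool.Agent.R972.OP.pieceUPC n N (Rp R ε) (fun _ => cb N)
      (fun g => f (fp ε (Pool.Agent.R972.OP.lp N g))) wc1.nonneg g hg).trans ?_
    have e3 : ∑ a, pd (fun y => f (fp ε y)) a (Pool.Agent.R972.OP.lp N g) ^ 2 =
        ∑ a, pd f a (fp ε (Pool.Agent.R972.OP.lp N g)) ^ 2 :=
      Finset.sum_congr rfl fun a _ => pd_fp hf ε a _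
    rw [e3] at hb1
    apply add_le_add hb1
    calc _ ≤ (Finset.univ.filter (fun p : Fin n × Fin n => g p.2 = g p.1 + 1)).card • C ε := by
          apply Finset.sum_le_card_nsmul
          intro p hp
          rw [Finset.mem_filter] at hp
          exact hb2 p.1 p.2 hp.2
      _ = C ε * (adj g : ℝ) := by
          rw [nsmul_eq_mul, mul_comm]
          rfl
  have hsum : ∑ s ∈ cfb K ng R, QB K ng R (cb (2 * N)) (fun s => f (xs N s)) N s ≤
      4 * (2 / Real.pi ^ 2 * (∑ ε ∈ Z, ∑ g ∈ cfg N (Rp R ε),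
          ∑ a, pd f a (fp ε (Pool.Agent.R972.OP.lp N g)) ^ 2) +
        ∑ ε ∈ Z, (err ε N * (∑ g ∈ cfg N (Rp R ε), (1 : ℝ)) +
          C ε * ∑ g ∈ cfg N (Rp R ε), (adj g : ℝ))) := by
    rw [sum_dec hK hR (fun s => QB K ng R (cb (2 * N)) (fun s => f (xs N s)) N s)]
    refine (Finset.sum_le_sum fun ε hε => Finset.sum_le_sum (hQ ε hε)).trans (le_of_eq ?_)
    rw [Finset.mul_sum, ← Finset.sum_add_distrib, Finset.mul_sum]
    refine Finset.sum_congr rfl fun ε _ => ?_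
    rw [← Finset.mul_sum, Finset.sum_add_distrib, Finset.sum_add_distrib, ← Finset.mul_sum,
      ← Finset.mul_sum, Finset.sum_const, Finset.sum_const, nsmul_eq_mul, nsmul_eq_mul]
    ring
  have hfin := hlat.trans (mul_le_mul_of_nonneg_left (mul_le_mul_of_nonneg_left hsum
    (by norm_num : (0 : ℝ) ≤ 1 / 2)) (Nat.cast_nonneg _))
  rw [hcard, hfs, hfs2] at hfin
  -- normalisation
  simp only [← Finset.sum_div]
  have hE : ∑ ε ∈ Z, (err ε N * ((∑ g ∈ cfg N (Rp R ε), (1 : ℝ)) / (N : ℝ) ^ n) +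
      C ε * ((∑ g ∈ cfg N (Rp R ε), (adj g : ℝ)) / (N : ℝ) ^ n)) =
      (∑ ε ∈ Z, (err ε N * (∑ g ∈ cfg N (Rp R ε), (1 : ℝ)) +
          C ε * ∑ g ∈ cfg N (Rp R ε), (adj g : ℝ))) / (N : ℝ) ^ n := by
    rw [Finset.sum_div]
    refine Finset.sum_congr rfl fun ε _ => ?_
    ring
  rw [hE]
  generalize (∑ ε ∈ Z, ∑ g ∈ cfg N (Rp R ε), (1 : ℝ)) = X1 at hfin ⊢
  generalize (∑ ε ∈ Z, ∑ g ∈ cfg N (Rp R ε), f (fp ε (Pool.Agent.R972.OP.lp N g))) = X2 at hfin ⊢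
  generalize (∑ ε ∈ Z, ∑ g ∈ cfg N (Rp R ε), f (fp ε (Pool.Agent.R972.OP.lp N g)) ^ 2) = X3
    at hfin ⊢
  generalize (∑ ε ∈ Z, ∑ g ∈ cfg N (Rp R ε),
    ∑ a, pd f a (fp ε (Pool.Agent.R972.OP.lp N g)) ^ 2) = X4 at hfin ⊢
  generalize (∑ ε ∈ Z, (err ε N * (∑ g ∈ cfg N (Rp R ε), (1 : ℝ)) +
          C ε * ∑ g ∈ cfg N (Rp R ε), (adj g : ℝ))) = X5 at hfin ⊢
  have hl : X1 / (N : ℝ) ^ n * (X3 / (N : ℝ) ^ n) - (X2 / (N : ℝ) ^ n) ^ 2 =
      (X1 * X3 - X2 ^ 2) / ((N : ℝ) ^ n) ^ 2 := by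
    field_simp
  have hr : X1 / (N : ℝ) ^ n * (1 / 2 * (4 * (2 / Real.pi ^ 2 * (X4 / (N : ℝ) ^ n) +
      X5 / (N : ℝ) ^ n))) = (X1 * (1 / 2 * (4 * (2 / Real.pi ^ 2 * X4 + X5)))) /
        ((N : ℝ) ^ n) ^ 2 := by
    field_simp
  rw [hl, hr]
  exact div_le_div_of_nonneg_right hfin (by positivity)

end Pool.Agent.L0h99.SO
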