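import Pool.Agent.L0h99.SO.Refl

/-!
# Signed order polytopes: the coupling
-/

set_option autoImplicit false
set_option linter.unusedSectionVars false
set_option linter.unusedVariables false

namespace Pool.Agent.L0h99.SO

variable {L : Type} [Fintype L] [DecidableEq L] {K : ℕ} {ν : L → L} {R : L → L → Prop}

/-- no pair of labels which `R` compares is at the positions `k`, `k + 1` -/
def Al (R : L → L → Prop) (s : L → ℕ) (k : ℕ) : Prop := ∀ a b, R a b → ¬ (s a = k ∧ s b = k + 1)

theorem rf_lt {e x y : ℕ} (hK : K % 2 = 1) (he : e + 1 ≤ K) (hxy : x < y) (hy : y ≤ K)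
    (h1 : ¬ (x = e ∧ y = e + 1)) (h2 : ¬ (x + e + 1 = K ∧ y + e = K)) :
    rf K e (e + 1) x < rf K e (e + 1) y := by
  unfold rf; split_ifs <;> omega

theorem nu_nu {s : L → ℕ} (hs : s ∈ cfb K ν R) (a : L) : ν (ν a) = a := by
  obtain ⟨h1, h2, h3, -⟩ := mem_cfb.1 hs
  apply h2
  have e1 := h3 a
  have e2 := h3 (ν a)
  omega

theorem al_mirror (hR : ∀ a b, R a b → R (ν b) (ν a)) {s : L → ℕ} (hs : s ∈ cfb K ν R) {k : ℕ}
    (hk : k + 1 ≤ K) (h : Al R s k) : Al R s (K - 1 - k) := by
  intro a b hab ⟨h1, h2⟩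
  obtain ⟨-, -, h3, -⟩ := mem_cfb.1 hs
  refine h _ _ (hR a b hab) ⟨?_, ?_⟩
  · have := h3 b; omega
  · have := h3 a; omega

theorem al_mirror_iff (hR : ∀ a b, R a b → R (ν b) (ν a)) {s : L → ℕ} (hs : s ∈ cfb K ν R) {k k' : ℕ}
    (hk : k + k' + 1 = K) : Al R s k ↔ Al R s k' := by
  constructor
  · intro h
    have := al_mirror hR hs (k := k) (by omega) h
    rwa [show K - 1 - k = k' by omega] at this
  · intro h
    have := al_mirror hR hs (k := k') (by omega) h
    rwa [show K - 1 - k' = k by omega] at this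

theorem mb_mem_iff (hK : K % 2 = 1) (hR : ∀ a b, R a b → R (ν b) (ν a)) {s : L → ℕ}
    (hs : s ∈ cfb K ν R) {e : ℕ} (he : e + 1 ≤ K) :
    mb K e (e + 1) s ∈ cfb K ν R ↔ Al R s e := by
  obtain ⟨h1, h2, h3, h4⟩ := mem_cfb.1 hs
  constructor
  · rintro h a b hab ⟨ha, hb⟩
    have := (mem_cfb.1 h).2.2.2 a b hab
    simp only [mb, ha, hb, rf_i] at this
    rw [rf_j K (by omega) rfl] at this
    omega
  · intro h
    have h' := al_mirror hR hs he h
    refine mem_cfb.2 ⟨fun a => rf_le (by omega) he (h1 a), ?_, ?_, ?_⟩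
    · intro a b hab
      apply h2
      rw [← rf_rf hK (Nat.lt_succ_self e) he (h1 a), ← rf_rf hK (Nat.lt_succ_self e) he (h1 b)]
      exact congrArg _ hab
    · intro a
      have e1 := rf_neg hK (Nat.lt_succ_self e) he (h1 a)
      have e2 : K - s a = s (ν a) := by have := h3 a; omega
      rw [e2] at e1
      have e3 := rf_le (K := K) (i := e) (j := e + 1) (by omega) he (h1 a)
      simp only [mb]
      have e4 : rf K e (e + 1) (s (ν a)) = K - rf K e (e + 1) (s a) := e1
      omega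
    · intro a b hab
      refine rf_lt hK he (h4 a b hab) (h1 b) (h a b hab) ?_
      rintro ⟨e1, e2⟩
      exact h' a b hab ⟨by omega, by omega⟩

/-- values of the displaced state -/
theorem mb_eq_i (hK : K % 2 = 1) {i j : ℕ} (hij : i < j) (hj : j ≤ K) {s : L → ℕ} (hs : ∀ a, s a ≤ K)
    (a : L) (x : ℕ) (hx : x ≤ K) : mb K i j s a = x ↔ s a = rf K i j x := by
  constructor
  · intro h
    rw [← h]
    exact (rf_rf hK hij hj (hs a)).symm
  · intro h
    show rf K i j (s a) = x
    rw [h]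
    exact rf_rf hK hij hj hx

theorem in1 (hK : K % 2 = 1) {s : L → ℕ} (hs : s ∈ cfb K ν R) {i j : ℕ} (hij : i + 1 < j) (hj : j ≤ K)
    (ht : mb K i j s ∈ cfb K ν R) (hne : ¬ i + 1 + j = K) : Al R s i ∧ Al R (mb K i j s) i := by
  obtain ⟨h1, h2, h3, h4⟩ := mem_cfb.1 hs
  obtain ⟨g1, g2, g3, g4⟩ := mem_cfb.1 ht
  constructor
  · rintro a b hab ⟨ha, hb⟩
    have := g4 a b hab
    simp only [mb, ha, hb] at this
    unfold rf at this
    split_ifs at this <;> omega
  · rintro a b hab ⟨ha, hb⟩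
    rw [mb_eq_i hK (by omega) hj h1 _ _ (by omega)] at ha hb
    have := h4 a b hab
    rw [ha, hb] at this
    unfold rf at this
    split_ifs at this <;> omega

theorem in2 (hK : K % 2 = 1) {s : L → ℕ} (hs : s ∈ cfb K ν R) {i k : ℕ} (hij : i < k) (hj : k + 1 ≤ K)
    (ht : mb K i (k + 1) s ∈ cfb K ν R) (hne : ¬ i + k = K) :
    Al R s k ∧ Al R (mb K i (k + 1) s) k := by
  obtain ⟨h1, h2, h3, h4⟩ := mem_cfb.1 hs
  obtain ⟨g1, g2, g3, g4⟩ := mem_cfb.1 ht
  constructor
  · rintro a b hab ⟨ha, hb⟩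
    have := g4 a b hab
    simp only [mb, ha, hb] at this
    unfold rf at this
    split_ifs at this <;> omega
  · rintro a b hab ⟨ha, hb⟩
    rw [mb_eq_i hK (by omega) hj h1 _ _ (by omega)] at ha hb
    have := h4 a b hab
    rw [ha, hb] at this
    unfold rf at this
    split_ifs at this <;> omega

theorem eq1 (hK : K % 2 = 1) (hR : ∀ a b, R a b → R (ν b) (ν a)) {s : L → ℕ} (hs : s ∈ cfb K ν R)
    {i j : ℕ} (hij : i < j) (hj : j ≤ K) (ht : mb K i j s ∈ cfb K ν R) (he : i + 1 + j = K) :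
    Al R s i ↔ Al R (mb K i j s) i := by
  obtain ⟨h1, h2, h3, h4⟩ := mem_cfb.1 hs
  obtain ⟨g1, g2, g3, g4⟩ := mem_cfb.1 ht
  have r1 : rf K i j i = j := rf_i K i j
  have r2 : rf K i j (i + 1) = K - i := rf_nj (by omega) (by omega) (by omega) (by omega)
  constructor
  · rintro h a b hab ⟨ha, hb⟩
    rw [mb_eq_i hK (by omega) hj h1 _ _ (by omega)] at ha hb
    rw [r1] at ha
    rw [r2] at hb
    refine h _ _ (hR a b hab) ⟨?_, ?_⟩
    · have := h3 b; omega
    · have := h3 a; omega
  · rintro h a b hab ⟨ha, hb⟩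
    have e1 := g3 a
    have e2 := g3 b
    have e3 : mb K i j s a = j := by rw [mb, ha, r1]
    have e4 : mb K i j s b = K - i := by rw [mb, hb, r2]
    exact h _ _ (hR a b hab) ⟨by omega, by omega⟩

theorem eq2 (hK : K % 2 = 1) (hR : ∀ a b, R a b → R (ν b) (ν a)) {s : L → ℕ} (hs : s ∈ cfb K ν R)
    {i k : ℕ} (hij : i < k + 1) (hj : k + 1 ≤ K) (ht : mb K i (k + 1) s ∈ cfb K ν R)
    (he : i + k = K) : Al R s k ↔ Al R (mb K i (k + 1) s) k := by
  obtain ⟨h1, h2, h3, h4⟩ := mem_cfb.1 hs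
  obtain ⟨g1, g2, g3, g4⟩ := mem_cfb.1 ht
  have r1 : rf K i (k + 1) (k + 1) = i := rf_j K (by omega) rfl
  have r2 : rf K i (k + 1) k = K - (k + 1) := rf_ni (by omega) (by omega) (by omega)
  constructor
  · rintro h a b hab ⟨ha, hb⟩
    rw [mb_eq_i hK (by omega) hj h1 _ _ (by omega)] at ha hb
    rw [r2] at ha
    rw [r1] at hb
    refine h _ _ (hR a b hab) ⟨?_, ?_⟩
    · have := h3 b; omega
    · have := h3 a; omega
  · rintro h a b hab ⟨ha, hb⟩
    have e1 := g3 a
    have e2 := g3 b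
    have e3 : mb K i (k + 1) s a = K - (k + 1) := by rw [mb, ha, r2]
    have e4 : mb K i (k + 1) s b = i := by rw [mb, hb, r1]
    exact h _ _ (hR a b hab) ⟨by omega, by omega⟩

theorem unt (hK : K % 2 = 1) {s : L → ℕ} (hs : s ∈ cfb K ν R)
    {i j k : ℕ} (hij : i < j) (hj : j ≤ K) (hk : k + 1 ≤ K)
    (hi1 : i ≠ k) (hi2 : i ≠ k + 1) (hi3 : i + k ≠ K) (hi4 : i + k + 1 ≠ K)
    (hj1 : j ≠ k) (hj2 : j ≠ k + 1) (hj3 : j + k ≠ K) (hj4 : j + k + 1 ≠ K) :
    Al R s k ↔ Al R (mb K i j s) k := by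
  obtain ⟨h1, h2, h3, h4⟩ := mem_cfb.1 hs
  have r1 : rf K i j k = k := rf_o (by omega) (by omega) (by omega) (by omega)
  have r2 : rf K i j (k + 1) = k + 1 := rf_o (by omega) (by omega) (by omega) (by omega)
  unfold Al
  have e : ∀ a b, (mb K i j s a = k ∧ mb K i j s b = k + 1) ↔ (s a = k ∧ s b = k + 1) := by
    intro a b
    rw [mb_eq_i hK hij hj h1 a k (by omega), mb_eq_i hK hij hj h1 b (k + 1) hk, r1, r2]
  simp only [e]

/-- lower end of the move `e` or of its mirror image -/
def Lo (K e x : ℕ) : Prop := x = e ∨ x + e + 1 = K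

/-- upper end -/
def Up (K e x : ℕ) : Prop := x = e + 1 ∨ x + e = K

theorem cases4 (hK : K % 2 = 1) (hR : ∀ a b, R a b → R (ν b) (ν a)) {s : L → ℕ} (hs : s ∈ cfb K ν R)
    {i j e : ℕ} (hij : i < j) (hj : j ≤ K) (ht : mb K i j s ∈ cfb K ν R) (he : e + 1 ≤ K) :
    (Al R s e ∧ Al R (mb K i j s) e) ∨ (Up K e i ∧ ¬ Up K e j) ∨ (Lo K e j ∧ ¬ Lo K e i) ∨
    ((Al R s e ↔ Al R (mb K i j s) e) ∧ ((Lo K e i ∧ Lo K e j) ∨ (Up K e i ∧ Up K e j) ∨
      (¬ Lo K e i ∧ ¬ Up K e i ∧ ¬ Lo K e j ∧ ¬ Up K e j))) := by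
  have h1 := (mem_cfb.1 hs).1
  by_cases hli : Lo K e i
  · by_cases hlj : Lo K e j
    · -- both lower
      right; right; right
      refine ⟨?_, Or.inl ⟨hli, hlj⟩⟩
      have hs1 : i + 1 + j = K := by unfold Lo at hli hlj; omega
      have h := eq1 hK hR hs hij hj ht hs1
      rcases hli with h2 | h2
      · subst h2; exact h
      · rwa [al_mirror_iff hR hs (k := e) (k' := i) (by omega),
          al_mirror_iff hR ht (k := e) (k' := i) (by omega)]
    · left
      have key : Al R s i ∧ Al R (mb K i j s) i := by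
        by_cases h3 : i + 1 = j
        · subst h3
          constructor
          · exact (mb_mem_iff hK hR hs hj).1 ht
          · rw [← mb_mem_iff hK hR ht hj, mb_mb hK hij hj h1]
            exact hs
        · refine in1 hK hs (by omega) hj ht ?_
          intro h4
          apply hlj
          unfold Lo at hli ⊢
          omega
      rcases hli with h2 | h2
      · subst h2; exact key
      · rwa [al_mirror_iff hR hs (k := e) (k' := i) (by omega),
          al_mirror_iff hR ht (k := e) (k' := i) (by omega)]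
  · by_cases hui : Up K e i
    · by_cases huj : Up K e j
      · right; right; right
        refine ⟨?_, Or.inr (Or.inl ⟨hui, huj⟩)⟩
        obtain ⟨k, rfl⟩ : ∃ k, j = k + 1 := ⟨j - 1, by omega⟩
        have hs1 : i + k = K := by unfold Up at hui huj; omega
        have h := eq2 hK hR hs hij hj ht hs1
        rcases huj with h2 | h2
        · rw [show k = e by omega] at h ht ⊢; exact h
        · rwa [al_mirror_iff hR hs (k := e) (k' := k) (by omega),
            al_mirror_iff hR ht (k := e) (k' := k) (by omega)]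
      · right; left; exact ⟨hui, huj⟩
    · by_cases hlj : Lo K e j
      · right; right; left; exact ⟨hlj, hli⟩
      · by_cases huj : Up K e j
        · left
          obtain ⟨k, rfl⟩ : ∃ k, j = k + 1 := ⟨j - 1, by omega⟩
          have h := in2 hK hs (i := i) (k := k) (by unfold Lo Up at *; omega) hj ht
            (by unfold Lo Up at *; omega)
          rcases huj with h2 | h2
          · rw [show k = e by omega] at h ht ⊢; exact h
          · rwa [al_mirror_iff hR hs (k := e) (k' := k) (by omega),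
              al_mirror_iff hR ht (k := e) (k' := k) (by omega)]
        · right; right; right
          refine ⟨?_, Or.inr (Or.inr ⟨hli, hui, hlj, huj⟩)⟩
          unfold Lo Up at *
          exact unt hK hs hij hj he (by omega) (by omega) (by omega) (by omega) (by omega)
            (by omega) (by omega) (by omega)

/-- displacement -/
def dl (K : ℕ) (W : ℕ → ℝ) (e x : ℕ) : ℝ := W (rf K e (e + 1) x) - W x

theorem dl_lo (hK : K % 2 = 1) {W : ℕ → ℝ} (hW : ∀ x, x ≤ K → W x + W (K - x) = 0) {e x : ℕ}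
    (he : e + 1 ≤ K) (h : Lo K e x) : dl K W e x = W (e + 1) - W e := by
  unfold dl
  by_cases h1 : x = e
  · subst h1; rw [rf_i]
  · have h2 : x + e + 1 = K := by unfold Lo at h; omega
    have h3 : rf K e (e + 1) x = K - e := by
      rw [rf_nj h1 (by omega) (by omega) (by omega)]
    have e1 := hW e (by omega)
    have e2 := hW (e + 1) (by omega)
    rw [h3, show x = K - (e + 1) by omega]
    linarith

theorem dl_up (hK : K % 2 = 1) {W : ℕ → ℝ} (hW : ∀ x, x ≤ K → W x + W (K - x) = 0) {e x : ℕ}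
    (he : e + 1 ≤ K) (h : Up K e x) : dl K W e x = -(W (e + 1) - W e) := by
  unfold dl
  by_cases h1 : x = e + 1
  · subst h1; rw [rf_j K (by omega) rfl]; ring
  · have h2 : x + e = K := by unfold Up at h; omega
    have h3 : rf K e (e + 1) x = K - (e + 1) := by
      rw [rf_ni (by omega) (by omega) (by omega)]
    have e1 := hW e (by omega)
    have e2 := hW (e + 1) (by omega)
    rw [h3, show x = K - e by omega]
    linarith

theorem dl_o {W : ℕ → ℝ} {e x : ℕ} (h1 : ¬ Lo K e x) (h2 : ¬ Up K e x) : dl K W e x = 0 := by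
  unfold dl
  unfold Lo Up at *
  rw [rf_o (by omega) (by omega) (by omega) (by omega), sub_self]

/-- one move -/
theorem ptb (hK : K % 2 = 1) (hR : ∀ a b, R a b → R (ν b) (ν a)) {W : ℕ → ℝ}
    (hWm : ∀ k, k + 1 ≤ K → W k < W (k + 1))
    (hW : ∀ x, x ≤ K → W x + W (K - x) = 0) {c M : ℝ} (hc : 0 ≤ c) (hM : 0 ≤ M) {F : (L → ℕ) → ℝ}
    (hF : ∀ g ∈ cfb K ν R, ∀ i j, i < j → j ≤ K → mb K i j g ∈ cfb K ν R →
      |F (mb K i j g) - F g| ≤ M * (W j - W i))
    {s : L → ℕ} (hs : s ∈ cfb K ν R) {i j : ℕ} (hij : i < j) (hj : j ≤ K)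
    (ht : mb K i j s ∈ cfb K ν R) (hD : F (mb K i j s) - F s = M * (W j - W i)) {e : ℕ}
    (he : e + 1 ≤ K) :
    tb K ν R c F (mb K i j s) e - tb K ν R c F s e ≤ M * (c * (dl K W e j - dl K W e i)) := by
  classical
  obtain ⟨h1, h2, h3, h4⟩ := mem_cfb.1 hs
  have hWe := hWm e he
  have hB : 0 ≤ M * (c * (W (e + 1) - W e)) := mul_nonneg hM (mul_nonneg hc (by linarith))
  have hee : e < e + 1 := Nat.lt_succ_self e
  -- both moves allowed
  have both : mb K e (e + 1) s ∈ cfb K ν R → mb K e (e + 1) (mb K i j s) ∈ cfb K ν R →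
      c * (F (mb K e (e + 1) (mb K i j s)) - F (mb K i j s)) - c * (F (mb K e (e + 1) s) - F s)
        ≤ M * (c * (dl K W e j - dl K W e i)) := by
    intro m1 m2
    have hcj := mb_conj hK hij hj hee he h1
    by_cases hlt : rf K e (e + 1) i < rf K e (e + 1) j
    · have hq : rf K e (e + 1) j ≤ K := rf_le (by omega) he hj
      have m3 : mb K (rf K e (e + 1) i) (rf K e (e + 1) j) (mb K e (e + 1) s) ∈ cfb K ν R := by
        rw [← hcj]; exact m2
      have h5 := (abs_le.1 (hF _ m1 _ _ hlt hq m3)).2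
      rw [← hcj] at h5
      have h6 : c * ((F (mb K e (e + 1) (mb K i j s)) - F (mb K e (e + 1) s)) -
          (F (mb K i j s) - F s)) ≤ c * (M * (W (rf K e (e + 1) j) - W (rf K e (e + 1) i)) -
            M * (W j - W i)) := mul_le_mul_of_nonneg_left (by rw [hD]; linarith) hc
      unfold dl
      linarith
    · -- the move is the exchange of `i` and `j`
      have hcase : (i = e ∧ j = e + 1) ∨ (i + e + 1 = K ∧ j + e = K) := by
        by_contra hcon
        rw [not_or] at hcon
        exact hlt (rf_lt hK he hij hj hcon.1 hcon.2)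
      have hsame : mb K e (e + 1) s = mb K i j s := by
        rcases hcase with ⟨e1, e2⟩ | ⟨e1, e2⟩
        · subst e1; subst e2; rfl
        · rw [← mb_mirror hK hij hj h1]
          rw [show K - j = e by omega, show K - i = e + 1 by omega]
      have hsame2 : mb K e (e + 1) (mb K i j s) = s := by
        rw [← hsame, mb_mb hK hee he h1]
      have r1 : dl K W e j - dl K W e i = -2 * (W j - W i) := by
        rcases hcase with ⟨e1, e2⟩ | ⟨e1, e2⟩
        · subst e1; subst e2
          rw [dl_up hK hW he (Or.inl rfl), dl_lo hK hW he (Or.inl rfl)]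
          ring
        · have w1 := hW e (by omega)
          have w2 := hW (e + 1) (by omega)
          rw [dl_up hK hW he (Or.inr e2), dl_lo hK hW he (Or.inr e1)]
          rw [show j = K - e by omega, show i = K - (e + 1) by omega]
          linarith
      rw [hsame, hsame2, r1]
      have h7 : F s - F (mb K i j s) = -(M * (W j - W i)) := by rw [← hD]; ring
      rw [h7, hD]
      apply le_of_eq
      ring
  have one_t : mb K e (e + 1) (mb K i j s) ∈ cfb K ν R →
      c * (F (mb K e (e + 1) (mb K i j s)) - F (mb K i j s)) ≤ M * (c * (W (e + 1) - W e)) := by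
    intro h
    have h5 := (abs_le.1 (hF _ ht e (e + 1) hee he h)).2
    have := mul_le_mul_of_nonneg_left h5 hc
    linarith
  have one_s : mb K e (e + 1) s ∈ cfb K ν R →
      - (c * (F (mb K e (e + 1) s) - F s)) ≤ M * (c * (W (e + 1) - W e)) := by
    intro h
    have h5 := (abs_le.1 (hF _ hs e (e + 1) hee he h)).1
    have := mul_le_mul_of_nonneg_left h5 hc
    linarith
  -- everything except both allowed, when the displacement is outward
  have out : W (e + 1) - W e ≤ dl K W e j - dl K W e i →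
      tb K ν R c F (mb K i j s) e - tb K ν R c F s e ≤ M * (c * (dl K W e j - dl K W e i)) := by
    intro h
    have hge : M * (c * (W (e + 1) - W e)) ≤ M * (c * (dl K W e j - dl K W e i)) :=
      mul_le_mul_of_nonneg_left (mul_le_mul_of_nonneg_left h hc) hM
    unfold tb
    by_cases m2 : mb K e (e + 1) (mb K i j s) ∈ cfb K ν R
    · by_cases m1 : mb K e (e + 1) s ∈ cfb K ν R
      · rw [if_pos m2, if_pos m1]; exact both m1 m2
      · rw [if_pos m2, if_neg m1]
        have := one_t m2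
        linarith
    · by_cases m1 : mb K e (e + 1) s ∈ cfb K ν R
      · rw [if_neg m2, if_pos m1]
        have := one_s m1
        linarith
      · rw [if_neg m2, if_neg m1]
        linarith
  rcases cases4 hK hR hs hij hj ht he with ⟨a1, a2⟩ | ⟨a1, a2⟩ | ⟨a1, a2⟩ | ⟨a1, a2⟩
  · have m1 := (mb_mem_iff hK hR hs he).2 a1
    have m2 := (mb_mem_iff hK hR ht he).2 a2
    unfold tb
    rw [if_pos m1, if_pos m2]
    exact both m1 m2
  · apply out
    rw [dl_up hK hW he a1]
    by_cases a3 : Lo K e j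
    · rw [dl_lo hK hW he a3]; linarith
    · rw [dl_o a3 a2]; linarith
  · apply out
    rw [dl_lo hK hW he a1]
    by_cases a3 : Up K e i
    · rw [dl_up hK hW he a3]; linarith
    · rw [dl_o a2 a3]; linarith
  · have h0 : 0 ≤ dl K W e j - dl K W e i := by
      rcases a2 with ⟨b1, b2⟩ | ⟨b1, b2⟩ | ⟨b1, b2, b3, b4⟩
      · rw [dl_lo hK hW he b1, dl_lo hK hW he b2, sub_self]
      · rw [dl_up hK hW he b1, dl_up hK hW he b2, sub_self]
      · rw [dl_o b1 b2, dl_o b3 b4, sub_self]
    rw [← mb_mem_iff hK hR hs he, ← mb_mem_iff hK hR ht he] at a1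
    unfold tb
    by_cases m1 : mb K e (e + 1) s ∈ cfb K ν R
    · rw [if_pos m1, if_pos (a1.1 m1)]; exact both m1 (a1.1 m1)
    · rw [if_neg m1, if_neg (fun h => m1 (a1.2 h)), sub_self]
      exact mul_nonneg hM (mul_nonneg hc h0)

end Pool.Agent.L0h99.SO
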