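import Pool.Agent.R972.OP.Stm

/-!
# Signed order polytopes: reflections of positions, admissible placements of signed labels

The labels are the elements of a finite type `L` with an involution `ν`, the positions are
`0, ..., K` with the involution `x ↦ K - x`, `K` odd.
-/

set_option autoImplicit false
set_option linter.unusedSectionVars false
set_option linter.unusedVariables false

namespace Pool.Agent.L0h99.SO

/-- the signed transposition of the positions `i` and `j` -/
def rf (K i j x : ℕ) : ℕ :=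
  if x = i then j else if x = j then i else if x + i = K then K - j else
    if x + j = K then K - i else x

theorem rf_le {K i j x : ℕ} (hi : i ≤ K) (hj : j ≤ K) (hx : x ≤ K) : rf K i j x ≤ K := by
  unfold rf; split_ifs <;> omega

theorem rf_rf {K i j x : ℕ} (hK : K % 2 = 1) (hij : i < j) (hj : j ≤ K) (hx : x ≤ K) :
    rf K i j (rf K i j x) = x := by
  unfold rf; split_ifs <;> omega

theorem rf_neg {K i j x : ℕ} (hK : K % 2 = 1) (hij : i < j) (hj : j ≤ K) (hx : x ≤ K) :
    rf K i j (K - x) = K - rf K i j x := by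
  unfold rf; split_ifs <;> omega

theorem rf_mirror {K i j x : ℕ} (hK : K % 2 = 1) (hij : i < j) (hj : j ≤ K) (hx : x ≤ K) :
    rf K (K - j) (K - i) x = rf K i j x := by
  unfold rf; split_ifs <;> omega

theorem rf_i (K i j : ℕ) : rf K i j i = j := by unfold rf; rw [if_pos rfl]

theorem rf_j (K : ℕ) {i j x : ℕ} (h1 : x ≠ i) (h2 : x = j) : rf K i j x = i := by
  unfold rf; rw [if_neg h1, if_pos h2]

theorem rf_ni {K i j x : ℕ} (h1 : x ≠ i) (h2 : x ≠ j) (h3 : x + i = K) :
    rf K i j x = K - j := by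
  unfold rf; rw [if_neg h1, if_neg h2, if_pos h3]

theorem rf_nj {K i j x : ℕ} (h1 : x ≠ i) (h2 : x ≠ j) (h3 : ¬ x + i = K) (h4 : x + j = K) :
    rf K i j x = K - i := by
  unfold rf; rw [if_neg h1, if_neg h2, if_neg h3, if_pos h4]

theorem rf_o {K i j x : ℕ} (h1 : x ≠ i) (h2 : x ≠ j) (h3 : ¬ x + i = K) (h4 : ¬ x + j = K) :
    rf K i j x = x := by
  unfold rf; rw [if_neg h1, if_neg h2, if_neg h3, if_neg h4]

/-- conjugation -/
theorem rf_conj {K i j p q x : ℕ} (hK : K % 2 = 1) (hij : i < j) (hj : j ≤ K) (hpq : p < q)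
    (hq : q ≤ K) (hx : x ≤ K) :
    rf K p q (rf K i j x) = rf K (rf K p q i) (rf K p q j) (rf K p q x) := by
  have hi : i ≤ K := by omega
  have hinj : ∀ u v, u ≤ K → v ≤ K → rf K p q u = rf K p q v → u = v := by
    intro u v hu hv h
    rw [← rf_rf hK hpq hq hu, h, rf_rf hK hpq hq hv]
  have hle : ∀ u, u ≤ K → rf K p q u ≤ K := fun u hu => rf_le (by omega) hq hu
  have hneg : ∀ u, u ≤ K → rf K p q (K - u) = K - rf K p q u := fun u hu => rf_neg hK hpq hq hu
  by_cases h1 : x = i
  · subst h1
    rw [rf_i, rf_i]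
  have h1' : rf K p q x ≠ rf K p q i := fun h => h1 (hinj _ _ hx hi h)
  by_cases h2 : x = j
  · rw [rf_j K h1 h2, rf_j K h1' (by rw [h2])]
  have h2' : rf K p q x ≠ rf K p q j := fun h => h2 (hinj _ _ hx hj h)
  have hle1 := hle x hx
  by_cases h3 : x + i = K
  · have e2 : rf K p q x + rf K p q i = K := by
      have := hneg i hi
      rw [show K - i = x by omega] at this
      have := hle i hi
      omega
    rw [rf_ni h1 h2 h3, rf_ni h1' h2' e2, hneg j hj]
  have e3 : ¬ rf K p q x + rf K p q i = K := by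
    intro h
    have h6 : rf K p q (K - i) = rf K p q x := by rw [hneg i hi]; omega
    have := hinj _ _ (by omega) hx h6
    omega
  by_cases h4 : x + j = K
  · have e2 : rf K p q x + rf K p q j = K := by
      have := hneg j hj
      rw [show K - j = x by omega] at this
      have := hle j hj
      omega
    rw [rf_nj h1 h2 h3 h4, rf_nj h1' h2' e3 e2, hneg i hi]
  · have e4 : ¬ rf K p q x + rf K p q j = K := by
      intro h
      have h6 : rf K p q (K - j) = rf K p q x := by rw [hneg j hj]; omega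
      have := hinj _ _ (by omega) hx h6
      omega
    rw [rf_o h1 h2 h3 h4, rf_o h1' h2' e3 e4]

section

variable {L : Type}

/-- signed transposition of the contents of the positions `i` and `j` -/
def mb (K i j : ℕ) (s : L → ℕ) : L → ℕ := fun a => rf K i j (s a)

variable [Fintype L] [DecidableEq L]

open Classical in
/-- admissible placements of the signed labels -/
noncomputable def cfb (K : ℕ) (ν : L → L) (R : L → L → Prop) : Finset (L → ℕ) :=
  (Fintype.piFinset fun _ => Finset.range (K + 1)).filter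
    fun s => Function.Injective s ∧ (∀ a, s a + s (ν a) = K) ∧ ∀ a b, R a b → s a < s b

theorem mem_cfb {K : ℕ} {ν : L → L} {R : L → L → Prop} {s : L → ℕ} : s ∈ cfb K ν R ↔
    (∀ a, s a ≤ K) ∧ Function.Injective s ∧ (∀ a, s a + s (ν a) = K) ∧ ∀ a b, R a b → s a < s b := by
  unfold cfb
  simp only [Finset.mem_filter, Fintype.mem_piFinset, Finset.mem_range, Nat.lt_succ_iff]

open Classical in
/-- contribution of one move to the generator -/
noncomputable def tb (K : ℕ) (ν : L → L) (R : L → L → Prop) (c : ℝ) (F : (L → ℕ) → ℝ)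
    (s : L → ℕ) (e : ℕ) : ℝ :=
  if mb K e (e + 1) s ∈ cfb K ν R then c * (F (mb K e (e + 1) s) - F s) else 0

open Classical in
/-- local energy -/
noncomputable def QB (K : ℕ) (ν : L → L) (R : L → L → Prop) (c : ℝ) (F : (L → ℕ) → ℝ)
    (N : ℕ) (s : L → ℕ) : ℝ := ∑ e ∈ Finset.range N,
  if mb K e (e + 1) s ∈ cfb K ν R then c * (F (mb K e (e + 1) s) - F s) ^ 2 else 0

theorem mb_mb {K i j : ℕ} (hK : K % 2 = 1) (hij : i < j) (hj : j ≤ K) {s : L → ℕ}
    (hs : ∀ a, s a ≤ K) : mb K i j (mb K i j s) = s := by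
  funext a
  exact rf_rf hK hij hj (hs a)

theorem mb_mirror {K i j : ℕ} (hK : K % 2 = 1) (hij : i < j) (hj : j ≤ K) {s : L → ℕ} (hs : ∀ a, s a ≤ K) :
    mb K (K - j) (K - i) s = mb K i j s := by
  funext a
  exact rf_mirror hK hij hj (hs a)

theorem mb_conj {K i j p q : ℕ} (hK : K % 2 = 1) (hij : i < j) (hj : j ≤ K) (hpq : p < q)
    (hq : q ≤ K) {s : L → ℕ} (hs : ∀ a, s a ≤ K) :
    mb K p q (mb K i j s) = mb K (rf K p q i) (rf K p q j) (mb K p q s) := by
  funext a
  exact rf_conj hK hij hj hpq hq (hs a)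

end

end Pool.Agent.L0h99.SO
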